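import Mathlib

set_option autoImplicit false

namespace Pool.Agent.H689R2

open Pell

/-- the Pell equation in natural-number form: `(a^2-1) y^2 + 1` is a square iff `y` is a term of
the Lucas sequence `yn`. -/
theorem isSquare_iff {a : ℕ} (a1 : 1 < a) (y : ℕ) :
    IsSquare ((a * a - 1) * (y * y) + 1) ↔ ∃ k, y = yn a1 k := by
  constructor
  · rintro ⟨x, hx⟩
    have h : x * x - (a * a - 1) * y * y = 1 := by
      rw [mul_assoc, ← hx]; omega
    obtain ⟨k, -, hk⟩ := eq_pell a1 (x := x) (y := y) h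
    exact ⟨k, hk⟩
  · rintro ⟨k, rfl⟩
    refine ⟨xn a1 k, ?_⟩
    have h : xn a1 k * xn a1 k - (a * a - 1) * yn a1 k * yn a1 k = 1 := pell_eq a1 k
    rw [mul_assoc] at h
    omega

theorem xn_sq {a : ℕ} (a1 : 1 < a) (k : ℕ) :
    xn a1 k * xn a1 k = (a * a - 1) * (yn a1 k * yn a1 k) + 1 := by
  have h : xn a1 k * xn a1 k - (a * a - 1) * yn a1 k * yn a1 k = 1 := pell_eq a1 k
  rw [mul_assoc] at h
  omega

theorem yn_pos {a : ℕ} (a1 : 1 < a) {k : ℕ} (hk : 0 < k) : 0 < yn a1 k := by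
  have := strictMono_y a1 hk
  simpa using this

/-- recurrence for `yn` over any commutative ring containing `ℕ`. -/
theorem yn_rec {a : ℕ} (a1 : 1 < a) (k : ℕ) :
    (yn a1 (k + 2) : ℤ) = 2 * a * yn a1 (k + 1) - yn a1 k := by
  have h := yn_succ_succ a1 k
  have h' : ((yn a1 (k + 2) + yn a1 k : ℕ) : ℤ) = ((2 * a * yn a1 (k + 1) : ℕ) : ℤ) := by
    exact_mod_cast h
  push_cast at h'
  linarith

theorem yn_upper {a : ℕ} (a1 : 1 < a) (k : ℕ) : yn a1 (k + 1) ≤ (2 * a) ^ k := by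
  induction k with
  | zero => simp
  | succ k ih =>
    have h := yn_succ_succ a1 k
    calc yn a1 (k + 2) ≤ 2 * a * yn a1 (k + 1) := by omega
      _ ≤ 2 * a * (2 * a) ^ k := Nat.mul_le_mul_left _ ih
      _ = (2 * a) ^ (k + 1) := by ring

theorem yn_step {a : ℕ} (a1 : 1 < a) (k : ℕ) : (2 * a - 1) * yn a1 k ≤ yn a1 (k + 1) := by
  cases k with
  | zero => simp
  | succ k =>
    have h := yn_succ_succ a1 k
    have h2 : yn a1 k ≤ yn a1 (k + 1) := (strictMono_y a1).monotone (Nat.le_succ k)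
    have : (2 * a - 1) * yn a1 (k + 1) + yn a1 (k + 1) = 2 * a * yn a1 (k + 1) := by
      rw [← Nat.succ_mul]; congr 1; omega
    rw [← h] at this
    have h3 : yn a1 (k + 1 + 1) = yn a1 (k + 2) := rfl
    omega

theorem yn_lower {a : ℕ} (a1 : 1 < a) (k : ℕ) : (2 * a - 1) ^ k ≤ yn a1 (k + 1) := by
  induction k with
  | zero => simp
  | succ k ih =>
    calc (2 * a - 1) ^ (k + 1) = (2 * a - 1) * (2 * a - 1) ^ k := by ring
      _ ≤ (2 * a - 1) * yn a1 (k + 1) := Nat.mul_le_mul_left _ ih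
      _ ≤ yn a1 (k + 2) := yn_step a1 (k + 1)

/-- step-down lemma for the `y`-coordinate. -/
theorem modEq_of_yn_modEq {a : ℕ} (a1 : 1 < a) {r t N : ℕ} (hr : r < N)
    (h : yn a1 t ≡ yn a1 r [MOD xn a1 N]) :
    t ≡ r [MOD 4 * N] ∨ t + r ≡ 2 * N [MOD 4 * N] := by
  have e1 : xn a1 (N + t) ≡ xn a1 (N + r) [MOD xn a1 N] := by
    rw [xn_add, xn_add]
    have h1 : xn a1 N * xn a1 t ≡ xn a1 N * xn a1 r [MOD xn a1 N] :=
      ((dvd_mul_right _ _).modEq_zero_nat).trans ((dvd_mul_right _ _).modEq_zero_nat).symm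
    exact h1.add (h.mul_left _)
  have e2 : xn a1 (N - r) + xn a1 (N + r) ≡ 0 [MOD xn a1 N] := by
    have := xn_modEq_x2n_sub a1 (n := N) (j := N + r) (by omega)
    rwa [show 2 * N - (N + r) = N - r by omega] at this
  have e3 : xn a1 (2 * N + (N + t)) + xn a1 (N + t) ≡ 0 [MOD xn a1 N] :=
    xn_modEq_x2n_add a1 N (N + t)
  have e4 : xn a1 (3 * N + t) ≡ xn a1 (N - r) [MOD xn a1 N] := by
    have h5 : xn a1 (2 * N + (N + t)) + xn a1 (N + t) ≡ xn a1 (N - r) + xn a1 (N + t)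
        [MOD xn a1 N] :=
      e3.trans (e2.symm.trans ((e1.symm).add_left _))
    have h6 := Nat.ModEq.add_right_cancel' _ h5
    rwa [show 2 * N + (N + t) = 3 * N + t by ring] at h6
  rcases modEq_of_xn_modEq a1 (i := N - r) (j := 3 * N + t) (n := N) (by omega) (by omega) e4
    with h7 | h7
  · right
    -- 3N + t ≡ N - r
    have h8 : 3 * N + t + (N + r) ≡ (N - r) + (N + r) [MOD 4 * N] := h7.add_right _
    have h9 : (N - r) + (N + r) = 2 * N := by omega
    rw [h9] at h8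
    have h10 : 3 * N + t + (N + r) = 4 * N + (t + r) := by ring
    rw [h10] at h8
    exact (by simpa [Nat.ModEq] using h8 : (t + r) % (4 * N) = (2 * N) % (4 * N))
  · left
    have h8 : 3 * N + t + (N - r) + r ≡ 0 + r [MOD 4 * N] := h7.add_right _
    have h10 : 3 * N + t + (N - r) + r = 4 * N + t := by omega
    rw [h10, zero_add] at h8
    exact (by simpa [Nat.ModEq] using h8 : t % (4 * N) = r % (4 * N))

end Pool.Agent.H689R2
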