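import Mathlib
import Pool.Agent.H689R2.PellA

set_option autoImplicit false

namespace Pool.Agent.H689R2

open Pell

section defs
variable {R : Type*} [CommRing R]

/-- `D = (A^2-1) C^2 + 1` -/
def qD (A C : R) : R := (A ^ 2 - 1) * C ^ 2 + 1
/-- `E = 4 C^2 D (x+1)` -/
def qE (A C x : R) : R := 4 * C ^ 2 * qD A C * (x + 1)
/-- `P = (A^2-1) E^2 + 1` -/
def qP (A C x : R) : R := (A ^ 2 - 1) * (qE A C x) ^ 2 + 1
/-- `G = A + P (P - A)` -/
def qG (A C x : R) : R := A + qP A C x * (qP A C x - A)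
/-- `H = C + P (B + C (2 y + 1))` -/
def qH (A B C x y : R) : R := C + qP A C x * (B + C * (2 * y + 1))
/-- `I = (G^2-1) H^2 + 1` -/
def qI (A B C x y : R) : R := ((qG A C x) ^ 2 - 1) * (qH A B C x y) ^ 2 + 1
/-- the product `D P I` -/
def qDPI (A B C x y : R) : R := qD A C * qP A C x * qI A B C x y

end defs

theorem isSquare_int_iff {a : ℕ} (a1 : 1 < a) (y : ℕ) :
    IsSquare (((a : ℤ) ^ 2 - 1) * (y : ℤ) ^ 2 + 1) ↔ ∃ k, y = yn a1 k := by
  rw [← isSquare_iff a1, ← Int.isSquare_natCast_iff]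
  have h1 : 1 ≤ a * a := Nat.mul_pos (by omega) (by omega)
  have : (((a * a - 1) * (y * y) + 1 : ℕ) : ℤ) = ((a : ℤ) ^ 2 - 1) * (y : ℤ) ^ 2 + 1 := by
    push_cast [Nat.cast_sub h1]; ring
  rw [this]

theorem isSquare_of_mul_coprime {a b : ℤ} (ha : 0 < a) (h : IsCoprime a b)
    (hs : IsSquare (a * b)) : IsSquare a := by
  obtain ⟨c, hc⟩ := hs
  rcases Int.sq_of_isCoprime h (by rw [hc]; ring : a * b = c ^ 2) with ⟨d, hd | hd⟩
  · exact ⟨d, by rw [hd]; ring⟩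
  · exfalso; nlinarith [sq_nonneg d]

theorem qP_eq (A C x : ℤ) :
    qP A C x = 1 + qD A C * ((A ^ 2 - 1) * (16 * C ^ 4 * qD A C * (x + 1) ^ 2)) := by
  unfold qP qE; ring

theorem qP_eq' (A C x : ℤ) :
    qP A C x = 1 + (4 * C) * ((A ^ 2 - 1) * (4 * C ^ 3 * (qD A C) ^ 2 * (x + 1) ^ 2)) := by
  unfold qP qE; ring

theorem coprime_D_P (A C x : ℤ) : IsCoprime (qD A C) (qP A C x) := by
  refine ⟨-((A ^ 2 - 1) * (16 * C ^ 4 * qD A C * (x + 1) ^ 2)), 1, ?_⟩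
  rw [qP_eq]; ring

theorem qI_sub (A B C x y : ℤ) :
    qI A B C x y = qD A C + qP A C x * ((qP A C x - A) * (qG A C x + A) * (qH A B C x y) ^ 2 +
      (A ^ 2 - 1) * ((B + C * (2 * y + 1)) * (qH A B C x y + C))) := by
  have hG : qG A C x = A + qP A C x * (qP A C x - A) := rfl
  have hH : qH A B C x y = C + qP A C x * (B + C * (2 * y + 1)) := rfl
  unfold qI qD
  rw [hG, hH]
  ring

theorem coprime_P_I (A B C x y : ℤ) : IsCoprime (qP A C x) (qI A B C x y) := by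
  rw [qI_sub]
  exact IsCoprime.add_mul_left_right (coprime_D_P A C x).symm _

theorem coprime_D_I (A B C x y : ℤ) : IsCoprime (qD A C) (qI A B C x y) := by
  have h1 : ∃ w, qG A C x - 1 = qD A C * w := by
    refine ⟨((A ^ 2 - 1) * (16 * C ^ 4 * qD A C * (x + 1) ^ 2)) * (qP A C x + 1 - A), ?_⟩
    have hG : qG A C x = A + qP A C x * (qP A C x - A) := rfl
    have hP := qP_eq A C x
    have : qG A C x - 1 = (qP A C x - 1) * (qP A C x + 1 - A) := by rw [hG]; ring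
    rw [this]
    nth_rewrite 1 [hP]
    ring
  obtain ⟨w, hw⟩ := h1
  refine ⟨-(w * (qG A C x + 1) * (qH A B C x y) ^ 2), 1, ?_⟩
  have : (qG A C x) ^ 2 - 1 = qD A C * w * (qG A C x + 1) := by rw [← hw]; ring
  unfold qI
  rw [this]; ring

theorem main_sound {A B C x y : ℕ} (hA : 1 < A) (hB : 0 < B) (hBC : B ≤ C)
    (h : IsSquare (qDPI (A : ℤ) B C x y)) : C = yn hA B := by
  have hC : 0 < C := lt_of_lt_of_le hB hBC
  have hAz : (2 : ℤ) ≤ A := by exact_mod_cast hA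
  have hCz : (1 : ℤ) ≤ C := by exact_mod_cast hC
  have hBz : (1 : ℤ) ≤ B := by exact_mod_cast hB
  have hxz : (0 : ℤ) ≤ x := by positivity
  have hyz : (0 : ℤ) ≤ y := by positivity
  have hA2 : (3 : ℤ) ≤ (A : ℤ) ^ 2 - 1 := by nlinarith
  have hD : 1 ≤ qD (A : ℤ) C := by unfold qD; nlinarith [sq_nonneg (C : ℤ)]
  have hE : 4 ≤ qE (A : ℤ) C x := by
    unfold qE
    have h1 : 1 ≤ (C : ℤ) ^ 2 := one_le_pow₀ hCz
    have h2 : 1 * 1 ≤ (C : ℤ) ^ 2 * qD (A : ℤ) C := mul_le_mul h1 hD (by norm_num) (by linarith)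
    have h3 : 1 * 1 ≤ ((C : ℤ) ^ 2 * qD (A : ℤ) C) * (x + 1) :=
      mul_le_mul (by linarith) (by linarith) (by norm_num) (by linarith)
    have h4 : 4 * (C : ℤ) ^ 2 * qD (A : ℤ) C * (x + 1) =
      4 * (((C : ℤ) ^ 2 * qD (A : ℤ) C) * (x + 1)) := by ring
    rw [h4]; linarith
  have hP : (A : ℤ) + 1 ≤ qP (A : ℤ) C x := by
    unfold qP
    have h1 : 16 ≤ (qE (A : ℤ) C x) ^ 2 := by nlinarith
    nlinarith
  have hG : (A : ℤ) + 1 ≤ qG (A : ℤ) C x := by
    unfold qG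
    nlinarith
  have hI : 1 ≤ qI (A : ℤ) B C x y := by
    unfold qI
    have h1 : 0 ≤ (qG (A : ℤ) C x) ^ 2 - 1 := by nlinarith
    nlinarith [mul_nonneg h1 (sq_nonneg (qH (A : ℤ) B C x y))]
  have c1 := coprime_D_P (A : ℤ) C x
  have c2 := coprime_P_I (A : ℤ) B C x y
  have c3 := coprime_D_I (A : ℤ) B C x y
  have hPpos : 0 < qP (A : ℤ) C x := by linarith
  have hDpos : 0 < qD (A : ℤ) C := by linarith
  have hIpos : 0 < qI (A : ℤ) B C x y := by linarith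
  have sD : IsSquare (qD (A : ℤ) C) := by
    refine isSquare_of_mul_coprime hDpos (IsCoprime.mul_right c1 c3) ?_
    rw [← mul_assoc]; exact h
  have sP : IsSquare (qP (A : ℤ) C x) := by
    refine isSquare_of_mul_coprime hPpos
      (IsCoprime.mul_right c1.symm c2) ?_
    have : qP (A : ℤ) C x * (qD (A : ℤ) C * qI (A : ℤ) B C x y) = qDPI (A : ℤ) B C x y := by
      unfold qDPI; ring
    rw [this]; exact h
  have sI : IsSquare (qI (A : ℤ) B C x y) := by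
    refine isSquare_of_mul_coprime hIpos
      (IsCoprime.mul_right c3.symm c2.symm) ?_
    have : qI (A : ℤ) B C x y * (qD (A : ℤ) C * qP (A : ℤ) C x) = qDPI (A : ℤ) B C x y := by
      unfold qDPI; ring
    rw [this]; exact h
  -- natural-number versions
  obtain ⟨E, hEn⟩ := Int.eq_ofNat_of_zero_le (by linarith : 0 ≤ qE (A : ℤ) C x)
  obtain ⟨P, hPn⟩ := Int.eq_ofNat_of_zero_le (by linarith : 0 ≤ qP (A : ℤ) C x)
  obtain ⟨G, hGn⟩ := Int.eq_ofNat_of_zero_le (by linarith : 0 ≤ qG (A : ℤ) C x)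
  have hH0 : 0 ≤ qH (A : ℤ) B C x y := by unfold qH; positivity
  obtain ⟨H, hHn⟩ := Int.eq_ofNat_of_zero_le hH0
  have hG1 : 1 < G := by
    have : (A : ℤ) + 1 ≤ G := by rw [← hGn]; exact hG
    have : (1 : ℤ) < G := by linarith
    exact_mod_cast this
  obtain ⟨r, hr⟩ := (isSquare_int_iff hA C).1 (by simpa [qD] using sD)
  obtain ⟨N, hN⟩ := (isSquare_int_iff hA E).1 (by rw [← hEn]; simpa [qP] using sP)
  obtain ⟨t, ht⟩ := (isSquare_int_iff hG1 H).1 (by rw [← hHn, ← hGn]; simpa [qI] using sI)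
  -- P = xn N ^ 2
  have hPx : (P : ℤ) = (xn hA N : ℤ) * xn hA N := by
    have h1 := xn_sq hA N
    have h2 : 1 ≤ A * A := Nat.mul_pos (by omega) (by omega)
    have h3 : ((xn hA N * xn hA N : ℕ) : ℤ) = (((A * A - 1) * (yn hA N * yn hA N) + 1 : ℕ) : ℤ) := by
      exact_mod_cast h1
    rw [← hPn, qP, hEn, hN]
    push_cast [Nat.cast_sub h2] at h3
    rw [h3]; ring
  have hGA : (G : ℤ) = A + P * (P - A) := by rw [← hGn, ← hPn]; rfl
  have hHC : (H : ℤ) = C + P * (B + C * (2 * y + 1)) := by rw [← hHn, ← hPn]; rfl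
  have hxP : ((xn hA N : ℕ) : ℤ) ∣ P := ⟨xn hA N, hPx⟩
  -- G ≡ A mod xn N
  have m1 : G ≡ A [MOD xn hA N] := by
    rw [← Int.natCast_modEq_iff]
    refine (Int.modEq_iff_dvd.2 ?_).symm
    rw [hGA]
    obtain ⟨q, hq⟩ := hxP
    exact ⟨q * (P - A), by rw [hq]; ring⟩
  have m2 : H ≡ C [MOD xn hA N] := by
    rw [← Int.natCast_modEq_iff]
    refine (Int.modEq_iff_dvd.2 ?_).symm
    rw [hHC]
    obtain ⟨q, hq⟩ := hxP
    exact ⟨q * (B + C * (2 * y + 1)), by rw [hq]; ring⟩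
  have hP4 : ∃ w : ℤ, (P : ℤ) = 1 + (4 * C) * w := ⟨_, by rw [← hPn]; exact qP_eq' A C x⟩
  obtain ⟨w, hw⟩ := hP4
  have m3 : yn hA t ≡ yn hA r [MOD xn hA N] := by
    have h1 := (xy_modEq_of_modEq hG1 hA m1 t).2
    rw [← ht] at h1
    rw [← hr]
    exact h1.symm.trans m2
  -- C ∣ N
  have hN0 : 0 < N := by
    rcases Nat.eq_zero_or_pos N with h0 | h0
    · exfalso
      rw [h0, yn_zero] at hN
      rw [hN] at hEn
      rw [hEn] at hE
      norm_num at hE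
    · exact h0
  have hCC : yn hA r * yn hA r ∣ yn hA N := by
    rw [← hr, ← hN]
    have : ((C * C : ℕ) : ℤ) ∣ (E : ℤ) := by
      rw [← hEn]
      refine ⟨4 * qD (A : ℤ) C * (x + 1), ?_⟩
      unfold qE; push_cast; ring
    exact_mod_cast this
  have hCN : C ∣ N := by
    have := dvd_of_ysq_dvd hA hCC
    rwa [← hr] at this
  have hr0 : 0 < r := by
    rcases Nat.eq_zero_or_pos r with h0 | h0
    · exfalso; rw [h0, yn_zero] at hr; omega
    · exact h0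
  have hrC : r ≤ C := by rw [hr]; exact yn_ge_n hA r
  have hrN : r < N := by
    have h1 : yn hA r < yn hA N := by
      rw [← hr, ← hN]
      have h5 : (C : ℤ) < E := by
        rw [← hEn]
        unfold qE
        have h6 : (C : ℤ) ≤ (C : ℤ) ^ 2 := by
          rw [sq]; exact le_mul_of_one_le_right (by linarith) hCz
        have h7 : (C : ℤ) ≤ (C : ℤ) ^ 2 * qD (A : ℤ) C :=
          h6.trans (le_mul_of_one_le_right (by positivity) hD)
        have h8 : (C : ℤ) ≤ (C : ℤ) ^ 2 * qD (A : ℤ) C * (x + 1) :=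
          h7.trans (le_mul_of_one_le_right (by linarith) (by linarith))
        have h9 : 4 * (C : ℤ) ^ 2 * qD (A : ℤ) C * (x + 1) =
          4 * ((C : ℤ) ^ 2 * qD (A : ℤ) C * (x + 1)) := by ring
        rw [h9]; linarith
      exact_mod_cast h5
    exact (strictMono_y hA).lt_iff_lt.1 h1
  have m4 : t ≡ B [MOD 2 * C] := by
    have h1 : H ≡ B [MOD 2 * C] := by
      rw [← Int.natCast_modEq_iff]
      refine (Int.modEq_iff_dvd.2 ?_).symm
      rw [hHC, hw]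
      refine ⟨(y : ℤ) + 1 + 2 * w * (B + C * (2 * y + 1)), ?_⟩
      push_cast; ring
    have h2 : H ≡ t [MOD 2 * C] := by
      have h3 := yn_modEq_a_sub_one hG1 t
      rw [← ht] at h3
      refine h3.of_dvd ?_
      have h4 : ((2 * C : ℕ) : ℤ) ∣ ((G - 1 : ℕ) : ℤ) := by
        rw [Nat.cast_sub hG1.le, hGA, hw]
        refine ⟨2 * w * (2 + 4 * C * w - A), ?_⟩
        push_cast; ring
      exact_mod_cast h4
    exact h2.symm.trans h1
  have key : t ≡ r [MOD 2 * C] ∨ t + r ≡ 0 [MOD 2 * C] := by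
    obtain ⟨c, hc⟩ := hCN
    have d1 : 2 * C ∣ 4 * N := ⟨2 * c, by rw [hc]; ring⟩
    rcases modEq_of_yn_modEq hA hrN m3 with h1 | h1
    · exact Or.inl (h1.of_dvd d1)
    · refine Or.inr ((h1.of_dvd d1).trans ?_)
      exact (Dvd.intro c (by rw [hc]; ring) : 2 * C ∣ 2 * N).modEq_zero_nat
  have hBr : B = r := by
    rcases key with h1 | h1
    · have h2 : B ≡ r [MOD 2 * C] := m4.symm.trans h1
      unfold Nat.ModEq at h2
      rwa [Nat.mod_eq_of_lt (by omega), Nat.mod_eq_of_lt (by omega)] at h2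
    · have h2 : B + r ≡ 0 [MOD 2 * C] := (m4.symm.add_right r).trans h1
      have h3 : 2 * C ∣ B + r := (Nat.modEq_zero_iff_dvd).1 h2
      have h4 : 2 * C ≤ B + r := Nat.le_of_dvd (by omega) h3
      omega
  rw [hBr]; exact hr

theorem main_complete {A B : ℕ} (hA : 1 < A) (hB : 2 ≤ B) :
    ∃ x y : ℕ, IsSquare (qDPI (A : ℤ) B (yn hA B) x y) := by
  set C := yn hA B with hCdef
  have hC : 0 < C := yn_pos hA (by omega)
  have hBC : B ≤ C := yn_ge_n hA B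
  have hAz : (2 : ℤ) ≤ A := by exact_mod_cast hA
  have hCz : (1 : ℤ) ≤ C := by exact_mod_cast hC
  have hBz : (2 : ℤ) ≤ B := by exact_mod_cast hB
  have hBCz : (B : ℤ) ≤ C := by exact_mod_cast hBC
  have hA2 : (3 : ℤ) ≤ (A : ℤ) ^ 2 - 1 := by nlinarith
  have h2A : 1 ≤ A * A := Nat.mul_pos (by omega) (by omega)
  have hDx : qD (A : ℤ) C = (xn hA B : ℤ) * xn hA B := by
    have h1 := xn_sq hA B
    have h3 : ((xn hA B * xn hA B : ℕ) : ℤ) = (((A * A - 1) * (yn hA B * yn hA B) + 1 : ℕ) : ℤ) := by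
      exact_mod_cast h1
    push_cast [Nat.cast_sub h2A] at h3
    rw [h3, qD, hCdef]; ring
  -- choose N
  set M := 2 * B with hM
  have hyM : yn hA M = 2 * (xn hA B * C) := by
    rw [hM, two_mul, yn_add, ← hCdef]; ring
  set N := M * yn hA M with hN
  have hdvd : yn hA M * yn hA M ∣ yn hA N := ysq_dvd_yy hA M
  have hNpos : 0 < N := by
    rw [hN]; exact Nat.mul_pos (by omega) (yn_pos hA (by omega))
  obtain ⟨q, hq⟩ := hdvd
  have hq0 : 0 < q := by
    rcases Nat.eq_zero_or_pos q with h0 | h0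
    · exfalso
      have := yn_pos hA hNpos
      rw [hq, h0] at this; omega
    · exact h0
  obtain ⟨x, hx⟩ : ∃ x, q = x + 1 := ⟨q - 1, by omega⟩
  have hE : qE (A : ℤ) C x = (yn hA N : ℤ) := by
    rw [hq, hyM, hx, qE, hDx]; push_cast; ring
  have hPx : qP (A : ℤ) C x = (xn hA N : ℤ) * xn hA N := by
    have h1 := xn_sq hA N
    have h3 : ((xn hA N * xn hA N : ℕ) : ℤ) = (((A * A - 1) * (yn hA N * yn hA N) + 1 : ℕ) : ℤ) := by
      exact_mod_cast h1
    push_cast [Nat.cast_sub h2A] at h3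
    rw [h3, qP, hE]; ring
  have hEge : 4 * (C : ℤ) ^ 2 ≤ qE (A : ℤ) C x := by
    unfold qE
    have hD : 1 ≤ qD (A : ℤ) C := by unfold qD; nlinarith [sq_nonneg (C : ℤ)]
    have hx0 : (1 : ℤ) ≤ x + 1 := by
      have : (0 : ℤ) ≤ x := by positivity
      linarith
    have h2 : 4 * (C : ℤ) ^ 2 ≤ 4 * (C : ℤ) ^ 2 * qD (A : ℤ) C :=
      le_mul_of_one_le_right (by positivity) hD
    exact h2.trans (le_mul_of_one_le_right (by linarith [sq_nonneg (C : ℤ)]) hx0)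
  have hPge : (A : ℤ) + 16 * C ^ 2 ≤ qP (A : ℤ) C x := by
    unfold qP
    have h1 : 1 ≤ (C : ℤ) ^ 2 := one_le_pow₀ hCz
    have h2 : 16 * (C : ℤ) ^ 2 ≤ (qE (A : ℤ) C x) ^ 2 := by
      have h3 : (4 * (C : ℤ) ^ 2) ^ 2 ≤ (qE (A : ℤ) C x) ^ 2 :=
        pow_le_pow_left₀ (by positivity) hEge 2
      have h4 : (C : ℤ) ^ 2 * 1 ≤ (C : ℤ) ^ 2 * (C : ℤ) ^ 2 :=
        mul_le_mul_of_nonneg_left h1 (by positivity)
      have h5 : (4 * (C : ℤ) ^ 2) ^ 2 = 16 * ((C : ℤ) ^ 2 * (C : ℤ) ^ 2) := by ring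
      linarith
    have h6 : (A : ℤ) + 1 ≤ (A : ℤ) ^ 2 - 1 := by nlinarith
    have h7 : ((A : ℤ) + 1) * (16 * (C : ℤ) ^ 2) ≤ ((A : ℤ) ^ 2 - 1) * (qE (A : ℤ) C x) ^ 2 :=
      mul_le_mul h6 h2 (by positivity) (by linarith)
    have h8 : (A : ℤ) * 1 ≤ A * C ^ 2 := mul_le_mul_of_nonneg_left h1 (by linarith)
    linarith
  have hGge : 8 * (C : ℤ) ^ 2 * qP (A : ℤ) C x ≤ qG (A : ℤ) C x := by
    unfold qG
    have h1 : 1 ≤ (C : ℤ) ^ 2 := one_le_pow₀ hCz
    have h2 : qP (A : ℤ) C x * (16 * C ^ 2) ≤ qP (A : ℤ) C x * (qP (A : ℤ) C x - A) :=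
      mul_le_mul_of_nonneg_left (by linarith) (by linarith)
    have h3 : 0 ≤ qP (A : ℤ) C x * C ^ 2 := mul_nonneg (by linarith) (by positivity)
    linarith
  have hC2 : 1 ≤ (C : ℤ) ^ 2 := one_le_pow₀ hCz
  have hP16 : 16 ≤ qP (A : ℤ) C x := by linarith
  have hG16 : 16 ≤ qG (A : ℤ) C x := by
    have h3 : 1 * 16 ≤ (8 * (C : ℤ) ^ 2) * qP (A : ℤ) C x :=
      mul_le_mul (by linarith) hP16 (by norm_num) (by linarith)
    linarith
  obtain ⟨P, hPn⟩ := Int.eq_ofNat_of_zero_le (by linarith : 0 ≤ qP (A : ℤ) C x)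
  have hPpos : (16 : ℤ) ≤ P := by rw [← hPn]; exact hP16
  obtain ⟨G, hGn⟩ := Int.eq_ofNat_of_zero_le (by linarith : 0 ≤ qG (A : ℤ) C x)
  have hG1 : 1 < G := by
    have : (1 : ℤ) < G := by rw [← hGn]; linarith
    exact_mod_cast this
  have hGA : (G : ℤ) = A + P * (P - A) := by rw [← hGn, ← hPn]; rfl
  obtain ⟨w, hw⟩ : ∃ w : ℤ, (P : ℤ) = 1 + (4 * C) * w := ⟨_, by rw [← hPn]; exact qP_eq' A C x⟩
  set H := yn hG1 B with hH
  have m1 : (P : ℤ) ∣ (H : ℤ) - C := by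
    have h1 : G ≡ A [MOD P] := by
      rw [← Int.natCast_modEq_iff]
      refine (Int.modEq_iff_dvd.2 ?_).symm
      rw [hGA]; exact ⟨P - A, by ring⟩
    have h2 := (xy_modEq_of_modEq hG1 hA h1 B).2
    rw [← Int.natCast_modEq_iff] at h2
    exact Int.modEq_iff_dvd.1 h2.symm
  have m2 : ((2 * C : ℕ) : ℤ) ∣ (H : ℤ) - B := by
    have h3 := yn_modEq_a_sub_one hG1 B
    have h5 : H ≡ B [MOD 2 * C] := by
      refine h3.of_dvd ?_
      have h4 : ((2 * C : ℕ) : ℤ) ∣ ((G - 1 : ℕ) : ℤ) := by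
        rw [Nat.cast_sub hG1.le, hGA, hw]
        refine ⟨2 * w * (2 + 4 * C * w - A), ?_⟩
        push_cast; ring
      exact_mod_cast h4
    rw [← Int.natCast_modEq_iff] at h5
    exact Int.modEq_iff_dvd.1 h5.symm
  -- H - (C + P (B + C)) divisible by 2 C P
  obtain ⟨u, hu⟩ := m1
  have m3 : ((2 * C : ℕ) : ℤ) ∣ u - (B + C) := by
    have h1 : ((2 * C : ℕ) : ℤ) ∣ P * (u - (B + C)) := by
      have h2 : (P : ℤ) * (u - (B + C)) = (H - B) - (2 * C) * (1 + 2 * w * (B + C)) := by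
        have : (P : ℤ) * u = H - C := hu.symm
        rw [mul_sub, this, hw]; ring
      rw [h2]
      refine dvd_sub m2 ⟨1 + 2 * w * (B + C), ?_⟩
      push_cast; ring
    have hcop : IsCoprime ((2 * C : ℕ) : ℤ) (P : ℤ) := by
      refine ⟨-(2 * w), 1, ?_⟩
      rw [hw]; push_cast; ring
    exact IsCoprime.dvd_of_dvd_mul_left hcop h1
  obtain ⟨y, hy⟩ := m3
  have hHge : (G : ℤ) ≤ H := by
    have h1 : G ≤ H := by
      have h2 : yn hG1 2 ≤ yn hG1 B := (strictMono_y hG1).monotone hB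
      have h3 : yn hG1 2 = 2 * G := by
        have := yn_succ_succ hG1 0
        simp only [yn_zero, zero_add, yn_one, add_zero, mul_one] at this
        exact this
      rw [h3] at h2
      exact le_trans (by omega) h2
    exact_mod_cast h1
  have hyn : 0 ≤ y := by
    by_contra hneg
    have hy1 : y ≤ -1 := by omega
    have h1 : u ≤ 0 := by
      have h6 : u - (B + C) = 2 * C * y := by rw [hy]; push_cast; ring
      have h7 : 2 * (C : ℤ) * y ≤ 2 * C * (-1) := mul_le_mul_of_nonneg_left hy1 (by linarith)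
      linarith
    have h2 : (H : ℤ) = C + P * u := by rw [← hu]; ring
    have h3 : (P : ℤ) * u ≤ 0 := mul_nonpos_of_nonneg_of_nonpos (by linarith) h1
    have h4 : 8 * (C : ℤ) ^ 2 * P ≤ G := by rw [← hGn, ← hPn]; exact hGge
    have h5 : (C : ℤ) ≤ C ^ 2 := by rw [sq]; exact le_mul_of_one_le_right (by linarith) hCz
    have h6 : (C : ℤ) ^ 2 * 16 ≤ C ^ 2 * P := mul_le_mul_of_nonneg_left hPpos (by linarith)
    linarith
  obtain ⟨y', hy'⟩ := Int.eq_ofNat_of_zero_le hyn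
  refine ⟨x, y', ?_⟩
  have hHq : qH (A : ℤ) B C x y' = H := by
    have h2 : (H : ℤ) = C + P * u := by rw [← hu]; ring
    have h3 : u = B + C + 2 * C * y' := by
      have : u - (B + C) = 2 * C * y := by rw [hy]; push_cast; ring
      rw [← hy']; linarith
    rw [h2, h3, ← hPn, qH]; ring
  have hIx : qI (A : ℤ) B C x y' = (xn hG1 B : ℤ) * xn hG1 B := by
    have h1 := xn_sq hG1 B
    have h2 : 1 ≤ G * G := Nat.mul_pos (by omega) (by omega)
    have h3 : ((xn hG1 B * xn hG1 B : ℕ) : ℤ) = (((G * G - 1) * (yn hG1 B * yn hG1 B) + 1 : ℕ) : ℤ) := by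
      exact_mod_cast h1
    push_cast [Nat.cast_sub h2] at h3
    rw [h3, qI, hHq, hGn, hH]; ring
  refine ⟨(xn hA B : ℤ) * xn hA N * xn hG1 B, ?_⟩
  rw [qDPI, hDx, hPx, hIx]; ring

end Pool.Agent.H689R2
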