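import Mathlib
import Pool.Agent.H689R2.PellA

set_option autoImplicit false

namespace Pool.Agent.H689R2

open Pell Finset

/-- coefficients of the expansion of `ψ_n(z+2)` in terms of `ψ_{k+1}(z)`. -/
def eC : ℕ → ℕ → ℤ
  | 0, _ => 0
  | 1, 0 => 1
  | 1, _ + 1 => 0
  | n + 2, 0 => 2 * eC (n + 1) 0 + eC (n + 1) 1 - eC n 0
  | n + 2, k + 1 => 2 * eC (n + 1) (k + 1) + eC (n + 1) k + eC (n + 1) (k + 2) - eC n (k + 1)

theorem eC_vanish : ∀ n k : ℕ, n ≤ k → eC n k = 0
  | 0, k, _ => by cases k <;> rfl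
  | 1, k + 1, _ => rfl
  | n + 2, k + 1, h => by
    rw [eC, eC_vanish (n + 1) (k + 1) (by omega), eC_vanish (n + 1) k (by omega),
      eC_vanish (n + 1) (k + 2) (by omega), eC_vanish n (k + 1) (by omega)]
    simp

theorem eC_sum_ext (n M : ℕ) (h : n ≤ M) (g : ℕ → ℤ) :
    ∑ k ∈ range M, eC n k * g k = ∑ k ∈ range n, eC n k * g k := by
  symm
  apply sum_subset (range_subset_range.2 h)
  intro k _ hk
  rw [eC_vanish n k (by simpa using hk), zero_mul]

theorem expand {V : ℕ} (h1 : 1 < V) (h2 : 1 < V + 1) :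
    ∀ n : ℕ, (yn h2 n : ℤ) = ∑ k ∈ range n, eC n k * (yn h1 (k + 1) : ℤ)
  | 0 => by simp
  | 1 => by simp [eC]
  | n + 2 => by
    have i1 := expand h1 h2 (n + 1)
    have i0 := expand h1 h2 n
    have r := yn_rec h2 n
    push_cast at r
    rw [r]
    have s0 := eC_sum_ext (n + 2) (n + 4) (by omega) (fun k => (yn h1 (k + 1) : ℤ))
    rw [← s0, sum_range_succ']
    have t1 := eC_sum_ext (n + 1) (n + 4) (by omega) (fun k => (yn h1 (k + 1) : ℤ))
    have t0 := eC_sum_ext n (n + 4) (by omega) (fun k => (yn h1 (k + 1) : ℤ))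
    have t2 := eC_sum_ext (n + 1) (n + 3) (by omega) (fun k => (yn h1 (k + 2) : ℤ))
    have t3 := eC_sum_ext (n + 1) (n + 5) (by omega) (fun k => (yn h1 k : ℤ))
    have e1 : ∑ k ∈ range (n + 3), eC (n + 2) (k + 1) * (yn h1 (k + 1 + 1) : ℤ) =
        2 * ∑ k ∈ range (n + 3), eC (n + 1) (k + 1) * (yn h1 (k + 1 + 1) : ℤ) +
        ∑ k ∈ range (n + 3), eC (n + 1) k * (yn h1 (k + 2) : ℤ) +
        ∑ k ∈ range (n + 3), eC (n + 1) (k + 1 + 1) * (yn h1 (k + 1 + 1) : ℤ) -
        ∑ k ∈ range (n + 3), eC n (k + 1) * (yn h1 (k + 1 + 1) : ℤ) := by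
      rw [mul_sum, ← sum_add_distrib, ← sum_add_distrib, ← sum_sub_distrib]
      apply sum_congr rfl
      intro k _
      rw [eC]; ring
    rw [e1]
    rw [sum_range_succ'] at t1 t0
    rw [sum_range_succ', sum_range_succ'] at t3
    simp only [yn_zero, Nat.cast_zero, mul_zero, add_zero, zero_add] at t3
    have key : (2 * (V : ℤ)) * ∑ k ∈ range (n + 1), eC (n + 1) k * (yn h1 (k + 1) : ℤ) =
        ∑ k ∈ range (n + 1), eC (n + 1) k * (yn h1 (k + 2) : ℤ) +
        ∑ k ∈ range (n + 1), eC (n + 1) k * (yn h1 k : ℤ) := by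
      rw [mul_sum, ← sum_add_distrib]
      apply sum_congr rfl
      intro k _
      have := yn_rec h1 k
      rw [this]; ring
    have e0 : eC (n + 2) 0 = 2 * eC (n + 1) 0 + eC (n + 1) 1 - eC n 0 := by rw [eC]
    rw [e0]
    simp only [zero_add] at t1 t0 ⊢
    rw [i1, i0]
    linarith

theorem eC_mono : ∀ n : ℕ, (∀ k, 0 ≤ eC n k) ∧ (∀ k, eC n k ≤ eC (n + 1) (k + 1))
  | 0 => by
    refine ⟨fun k => by simp [eC], fun k => ?_⟩
    cases k <;> simp [eC]
  | 1 => by
    refine ⟨fun k => ?_, fun k => ?_⟩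
    · cases k <;> simp [eC]
    · rcases k with _ | _ | k <;> simp [eC]
  | n + 2 => by
    obtain ⟨a0, b0⟩ := eC_mono n
    obtain ⟨a1, b1⟩ := eC_mono (n + 1)
    have a2 : ∀ k, 0 ≤ eC (n + 2) k := by
      intro k
      cases k with
      | zero =>
        rw [eC]
        linarith [a1 0, b0 0]
      | succ k =>
        exact (a1 k).trans (b1 k)
    refine ⟨a2, fun k => ?_⟩
    have : eC (n + 3) (k + 1) = 2 * eC (n + 2) (k + 1) + eC (n + 2) k + eC (n + 2) (k + 2)
        - eC (n + 1) (k + 1) := by rw [eC]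
    rw [this]
    linarith [a2 (k + 1), b1 (k + 1)]

theorem eC_lower : ∀ n k : ℕ, (2 : ℤ) ^ (n - k) * (n.choose k : ℤ) ≤ eC (n + 1) k
  | 0, 0 => by simp [eC]
  | 0, k + 1 => by simp [eC]
  | n + 1, 0 => by
    have ih := eC_lower n 0
    have h := (eC_mono n).2 0
    rw [eC]
    simp only [Nat.choose_zero_right, Nat.cast_one, mul_one, Nat.sub_zero] at ih ⊢
    rw [pow_succ]
    linarith
  | n + 1, k + 1 => by
    have ih1 := eC_lower n k
    have ih2 := eC_lower n (k + 1)
    have h := (eC_mono n).2 (k + 1)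
    rw [eC, Nat.choose_succ_succ]
    push_cast
    rcases Nat.lt_or_ge k n with hkn | hkn
    · have e1 : n + 1 - (k + 1) = (n - (k + 1)) + 1 := by omega
      have e2 : n - k = (n - (k + 1)) + 1 := by omega
      rw [show n + 1 - (k + 1) = n - k by omega] at *
      rw [e2] at ih1 ⊢
      rw [pow_succ] at ih1 ⊢
      have e3 : n.choose k.succ = n.choose (k + 1) := rfl
      rw [e3]
      linarith
    · have hc : n.choose (k + 1) = 0 := Nat.choose_eq_zero_of_lt (by omega)
      rw [hc] at ih2 ⊢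
      simp only [Nat.cast_zero, mul_zero, add_zero] at ih2 ⊢
      linarith

theorem eC_upper : ∀ n k : ℕ, k ≤ n → eC (n + 1) k ≤ ((2 * n).choose (n - k) : ℤ)
  | 0, 0, _ => by simp [eC]
  | 1, 0, _ => by simp [eC]
  | n + 2, 0, _ => by
    have h0 := (eC_mono (n + 1)).1 0
    have ih0 := eC_upper (n + 1) 0 (by omega)
    have ih1 := eC_upper (n + 1) 1 (by omega)
    have e0 : eC (n + 2 + 1) 0 = 2 * eC (n + 1 + 1) 0 + eC (n + 1 + 1) 1 - eC (n + 1) 0 := by
      rw [eC]
    have e : (2 * (n + 2)).choose (n + 2 - 0) =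
        (2 * (n + 1)).choose (n + 2) + 2 * (2 * (n + 1)).choose (n + 1) +
          (2 * (n + 1)).choose n := by
      rw [show 2 * (n + 2) = 2 * (n + 1) + 1 + 1 by ring, show n + 2 - 0 = n + 1 + 1 by omega,
        Nat.choose_succ_succ' (2 * (n + 1) + 1) (n + 1), Nat.choose_succ_succ' (2 * (n + 1)) n,
        Nat.choose_succ_succ' (2 * (n + 1)) (n + 1)]
      ring
    rw [e, e0]
    simp only [Nat.sub_zero, Nat.add_sub_cancel] at ih0 ih1
    push_cast
    have : (0 : ℤ) ≤ ((2 * (n + 1)).choose (n + 2) : ℤ) := by positivity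
    linarith
  | n + 1, k + 1, h => by
    have h0 := (eC_mono n).1 (k + 1)
    have ih0 := eC_upper n k (by omega)
    rw [eC]
    obtain ⟨i, hi⟩ : ∃ i, n = k + i := ⟨n - k, by omega⟩
    rcases i with _ | _ | i
    · -- n = k
      have v1 : eC (n + 1) (k + 1) = 0 := eC_vanish _ _ (by omega)
      have v2 : eC (n + 1) (k + 2) = 0 := eC_vanish _ _ (by omega)
      rw [v1, v2]
      have e1 : n + 1 - (k + 1) = 0 := by omega
      have e2 : n - k = 0 := by omega
      rw [e1]
      rw [e2] at ih0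
      simp only [Nat.choose_zero_right, Nat.cast_one] at ih0 ⊢
      linarith
    · -- n = k + 1
      have v2 : eC (n + 1) (k + 2) = 0 := eC_vanish _ _ (by omega)
      have ih1 := eC_upper n (k + 1) (by omega)
      rw [v2]
      have e1 : n + 1 - (k + 1) = 1 := by omega
      have e2 : n - k = 1 := by omega
      have e3 : n - (k + 1) = 0 := by omega
      rw [e1]
      rw [e2] at ih0
      rw [e3] at ih1
      simp only [Nat.choose_zero_right, Nat.cast_one, Nat.choose_one_right] at ih0 ih1 ⊢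
      push_cast at ih0 ⊢
      linarith
    · have ih1 := eC_upper n (k + 1) (by omega)
      have ih2 := eC_upper n (k + 2) (by omega)
      have e1 : n + 1 - (k + 1) = i + 2 := by omega
      have e2 : n - k = i + 2 := by omega
      have e3 : n - (k + 1) = i + 1 := by omega
      have e4 : n - (k + 2) = i := by omega
      rw [e1]
      rw [e2] at ih0
      rw [e3] at ih1
      rw [e4] at ih2
      have e : (2 * (n + 1)).choose (i + 2) =
        (2 * n).choose (i + 2) + 2 * (2 * n).choose (i + 1) + (2 * n).choose i := by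
        rw [show 2 * (n + 1) = 2 * n + 1 + 1 by ring, Nat.choose_succ_succ,
          Nat.choose_succ_succ, Nat.choose_succ_succ (2 * n) (i + 1)]
        ring
      rw [e]
      push_cast
      linarith

end Pool.Agent.H689R2
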