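import Mathlib
import Pool.Agent.H689R2.Expand

set_option autoImplicit false

namespace Pool.Agent.H689R2

open Pell Finset

theorem choose_succ_le (N i : ℕ) : N.choose (i + 1) ≤ N * N.choose i := by
  have h := Nat.choose_succ_right_eq N i
  calc N.choose (i + 1) ≤ N.choose (i + 1) * (i + 1) := Nat.le_mul_of_pos_right _ (by omega)
    _ = N.choose i * (N - i) := h
    _ ≤ N.choose i * N := Nat.mul_le_mul_left _ (Nat.sub_le _ _)
    _ = N * N.choose i := Nat.mul_comm _ _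

theorem tail_upper {V : ℕ} (h1 : 1 < V) (n : ℕ) (hV : 4 * n ≤ 2 * V - 1) :
    ∀ t : ℕ, t ≤ n → (2 * V - 1) * ∑ k ∈ range (t + 1), (2 * n).choose (n - k) * yn h1 (k + 1) ≤
      (2 * V - 1 + 4 * n) * ((2 * n).choose (n - t) * yn h1 (t + 1)) := by
  intro t
  induction t with
  | zero =>
    intro _
    rw [sum_range_one]
    exact Nat.mul_le_mul_right _ (Nat.le_add_right _ _)
  | succ t ih =>
    intro ht
    have ih' := ih (by omega)
    rw [sum_range_succ, Nat.mul_add]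
    -- U_t ≤ 2 * last
    set U := ∑ k ∈ range (t + 1), (2 * n).choose (n - k) * yn h1 (k + 1) with hU
    set c0 := (2 * n).choose (n - t) with hc0
    set c1 := (2 * n).choose (n - (t + 1)) with hc1
    have hc : c0 ≤ 2 * n * c1 := by
      have := choose_succ_le (2 * n) (n - (t + 1))
      rwa [show n - (t + 1) + 1 = n - t by omega] at this
    have hy := yn_step h1 (t + 1)
    have h3 : (2 * V - 1) * U ≤ (2 * V - 1) * (2 * (c0 * yn h1 (t + 1))) := by
      calc (2 * V - 1) * U ≤ (2 * V - 1 + 4 * n) * (c0 * yn h1 (t + 1)) := ih'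
        _ ≤ (2 * V - 1 + (2 * V - 1)) * (c0 * yn h1 (t + 1)) :=
            Nat.mul_le_mul_right _ (by omega)
        _ = (2 * V - 1) * (2 * (c0 * yn h1 (t + 1))) := by ring
    calc (2 * V - 1) * U + (2 * V - 1) * (c1 * yn h1 (t + 1 + 1))
        ≤ (2 * V - 1) * (2 * (c0 * yn h1 (t + 1))) + (2 * V - 1) * (c1 * yn h1 (t + 1 + 1)) :=
          Nat.add_le_add_right h3 _
      _ = 2 * c0 * ((2 * V - 1) * yn h1 (t + 1)) + (2 * V - 1) * (c1 * yn h1 (t + 1 + 1)) := by
          ring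
      _ ≤ 2 * (2 * n * c1) * yn h1 (t + 1 + 1) + (2 * V - 1) * (c1 * yn h1 (t + 1 + 1)) :=
          Nat.add_le_add_right (Nat.mul_le_mul (Nat.mul_le_mul_left _ hc) hy) _
      _ = (2 * V - 1 + 4 * n) * (c1 * yn h1 (t + 1 + 1)) := by ring

theorem sum_choose_le (N : ℕ) : ∀ j : ℕ, 3 * j ≤ N → ∑ i ∈ range j, N.choose i ≤ N.choose j
  | 0, _ => by simp
  | j + 1, h => by
    have ih := sum_choose_le N j (by omega)
    rw [sum_range_succ]
    have h1 := Nat.choose_succ_right_eq N j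
    have h2 : 2 * (j + 1) ≤ N - j := by omega
    have h3 : N.choose j * (2 * (j + 1)) ≤ N.choose (j + 1) * (j + 1) := by
      rw [h1]; exact Nat.mul_le_mul_left _ h2
    have h4 : (2 * N.choose j) * (j + 1) ≤ N.choose (j + 1) * (j + 1) := by
      calc _ = N.choose j * (2 * (j + 1)) := by ring
        _ ≤ _ := h3
    have h5 := Nat.le_of_mul_le_mul_right h4 (by omega)
    omega

theorem yn_reflect {V : ℕ} (h1 : 1 < V) {a b : ℕ} (h : b ≤ a) :
    (yn h1 (a + b) : ℤ) = 2 * xn h1 b * yn h1 a - yn h1 (a - b) := by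
  have e1 := yn_add h1 a b
  have e2 := yz_sub h1 h
  unfold yz xz at e2
  rw [e1, e2]
  push_cast
  ring

/-- exact division with remainder of `yn (V+1) (n+1)` by `yn V (m+1)`, `n = m + j`. -/
theorem division {V : ℕ} (h1 : 1 < V) (h2 : 1 < V + 1) (m j : ℕ) (hj : j ≤ m + 1) :
    ∃ L : ℕ, (yn h2 (m + j + 1) : ℤ) = yn h1 (m + 1) * L +
      (∑ k ∈ range m, eC (m + j + 1) k * (yn h1 (k + 1) : ℤ) -
        ∑ r ∈ range j, eC (m + j + 1) (m + 1 + r) * (yn h1 (m - r) : ℤ)) := by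
  have hL : 0 ≤ eC (m + j + 1) m +
      ∑ r ∈ range j, eC (m + j + 1) (m + 1 + r) * (2 * (xn h1 (r + 1) : ℤ)) := by
    apply add_nonneg ((eC_mono _).1 _)
    apply sum_nonneg
    intro r _
    exact mul_nonneg ((eC_mono _).1 _) (by positivity)
  obtain ⟨L, hL'⟩ := Int.eq_ofNat_of_zero_le hL
  refine ⟨L, ?_⟩
  have hexp := expand h1 h2 (m + j + 1)
  rw [hexp, show m + j + 1 = (m + 1) + j by ring, sum_range_add, sum_range_succ]
  have hLr : (L : ℤ) = eC (m + j + 1) m +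
      ∑ r ∈ range j, eC (m + j + 1) (m + 1 + r) * (2 * (xn h1 (r + 1) : ℤ)) := by
    rw [hL']
  rw [hLr, mul_add, mul_sum]
  have e1 : ∑ r ∈ range j, eC (m + 1 + j) (m + 1 + r) * (yn h1 (m + 1 + r + 1) : ℤ) =
      ∑ r ∈ range j, (yn h1 (m + 1) : ℤ) *
        (eC (m + j + 1) (m + 1 + r) * (2 * (xn h1 (r + 1) : ℤ))) -
      ∑ r ∈ range j, eC (m + j + 1) (m + 1 + r) * (yn h1 (m - r) : ℤ) := by
    rw [← sum_sub_distrib]
    apply sum_congr rfl
    intro r hr
    have hr' : r < j := mem_range.1 hr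
    have := yn_reflect h1 (a := m + 1) (b := r + 1) (by omega)
    rw [show m + 1 + (r + 1) = m + 1 + r + 1 by ring, show m + 1 - (r + 1) = m - r by omega]
      at this
    rw [this, show m + 1 + j = m + j + 1 by ring]
    ring
  rw [e1, show m + 1 + j = m + j + 1 by ring]
  ring

/-- bounds for the remainder `S` in the division lemma. -/
theorem remainder_bounds {V : ℕ} (h1 : 1 < V) (m j : ℕ) (hm : 1 ≤ m) (hj : 3 * j ≤ m)
    (hV : 4 * (m + j) ≤ 2 * V - 1) :
    let S : ℤ := (∑ k ∈ range m, eC (m + j + 1) k * (yn h1 (k + 1) : ℤ) -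
        ∑ r ∈ range j, eC (m + j + 1) (m + 1 + r) * (yn h1 (m - r) : ℤ))
    ((2 * V - 1 : ℕ) : ℤ) * S ≤ ((2 * V - 1 + 4 * (m + j) : ℕ) : ℤ) *
        (((2 * (m + j)).choose (j + 1) : ℕ) * (yn h1 m : ℤ)) ∧
    ((2 : ℤ) ^ (j + 1) * ((m + j).choose (j + 1) : ℕ) - ((2 * (m + j)).choose j : ℕ)) *
        (yn h1 m : ℤ) ≤ S := by
  intro S
  obtain ⟨t, rfl⟩ : ∃ t, m = t + 1 := ⟨m - 1, by omega⟩
  set n := t + 1 + j with hn
  have pos := (eC_mono (n + 1)).1
  have A1 : ∑ k ∈ range (t + 1), eC (n + 1) k * (yn h1 (k + 1) : ℤ) ≤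
      ((∑ k ∈ range (t + 1), (2 * n).choose (n - k) * yn h1 (k + 1) : ℕ) : ℤ) := by
    push_cast
    apply sum_le_sum
    intro k hk
    have hk' : k < t + 1 := mem_range.1 hk
    exact mul_le_mul_of_nonneg_right (eC_upper n k (by omega)) (by positivity)
  have A2 : 0 ≤ ∑ r ∈ range j, eC (n + 1) (t + 1 + 1 + r) * (yn h1 (t + 1 - r) : ℤ) :=
    sum_nonneg fun r _ => mul_nonneg (pos _) (by positivity)
  have A3 := tail_upper h1 n hV t (by omega)
  have A3' : ((2 * V - 1 : ℕ) : ℤ) *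
      ((∑ k ∈ range (t + 1), (2 * n).choose (n - k) * yn h1 (k + 1) : ℕ) : ℤ) ≤
      ((2 * V - 1 + 4 * n : ℕ) : ℤ) * (((2 * n).choose (n - t) : ℕ) * (yn h1 (t + 1) : ℤ)) := by
    exact_mod_cast A3
  constructor
  · have h3 : ((2 * V - 1 : ℕ) : ℤ) * S ≤ ((2 * V - 1 : ℕ) : ℤ) *
        ((∑ k ∈ range (t + 1), (2 * n).choose (n - k) * yn h1 (k + 1) : ℕ) : ℤ) := by
      apply mul_le_mul_of_nonneg_left _ (by positivity)
      show _ - _ ≤ _
      linarith
    refine h3.trans ?_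
    rw [show n - t = j + 1 by omega] at A3'
    exact A3'
  · have B1 : eC (n + 1) t * (yn h1 (t + 1) : ℤ) ≤
        ∑ k ∈ range (t + 1), eC (n + 1) k * (yn h1 (k + 1) : ℤ) := by
      apply single_le_sum (f := fun k => eC (n + 1) k * (yn h1 (k + 1) : ℤ))
        (fun k _ => mul_nonneg (pos _) (by positivity)) (by simp)
    have B2 : ∑ r ∈ range j, eC (n + 1) (t + 1 + 1 + r) * (yn h1 (t + 1 - r) : ℤ) ≤
        ((2 * n).choose j : ℤ) * (yn h1 (t + 1) : ℤ) := by
      have B3 : ∑ r ∈ range j, eC (n + 1) (t + 1 + 1 + r) * (yn h1 (t + 1 - r) : ℤ) ≤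
          ∑ r ∈ range j, ((2 * n).choose (j - 1 - r) : ℤ) * (yn h1 (t + 1) : ℤ) := by
        apply sum_le_sum
        intro r hr
        have hr' : r < j := mem_range.1 hr
        have c1 := eC_upper n (t + 1 + 1 + r) (by omega)
        rw [show n - (t + 1 + 1 + r) = j - 1 - r by omega] at c1
        have c2 : (yn h1 (t + 1 - r) : ℤ) ≤ yn h1 (t + 1) := by
          exact_mod_cast (strictMono_y h1).monotone (Nat.sub_le _ _)
        exact mul_le_mul c1 c2 (by positivity) (by positivity)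
      refine B3.trans ?_
      rw [← sum_mul]
      apply mul_le_mul_of_nonneg_right _ (by positivity)
      have B4 := sum_range_reflect (fun i => ((2 * n).choose i : ℤ)) j
      rw [B4]
      exact_mod_cast sum_choose_le (2 * n) j (by omega)
    have B5 := eC_lower n t
    rw [show n - t = j + 1 by omega] at B5
    have B6 : n.choose t = n.choose (j + 1) := by
      rw [← Nat.choose_symm (show t ≤ n by omega), show n - t = j + 1 by omega]
    rw [B6] at B5
    have B7 : (2 : ℤ) ^ (j + 1) * (n.choose (j + 1) : ℕ) * (yn h1 (t + 1) : ℤ) ≤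
        eC (n + 1) t * (yn h1 (t + 1) : ℤ) := mul_le_mul_of_nonneg_right B5 (by positivity)
    show _ ≤ _ - _
    rw [sub_mul]
    linarith

end Pool.Agent.H689R2
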