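import Mathlib
import Pool.Agent.H689R2.Estim

set_option autoImplicit false

namespace Pool.Agent.H689R2

open Pell Finset

theorem factorial_choose_le (n q : ℕ) : ((q.factorial * (2 * n).choose q : ℕ) : ℝ) ≤ (2 * n : ℝ) ^ q := by
  rw [← Nat.descFactorial_eq_factorial_mul_choose]
  have := Nat.descFactorial_le_pow (2 * n) q
  exact_mod_cast this

theorem factorial_choose_ge {n q : ℕ} (hq : q ≤ n) (hn : 0 < n) :
    (2 * n : ℝ) ^ q * (1 - (q : ℝ) ^ 2 / n) ≤
      2 ^ q * ((q.factorial * n.choose q : ℕ) : ℝ) := by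
  have h1 : ((n : ℝ) - q) ^ q ≤ ((q.factorial * n.choose q : ℕ) : ℝ) := by
    rw [← Nat.descFactorial_eq_factorial_mul_choose]
    have h2 := Nat.pow_sub_le_descFactorial n q
    have h2' : (((n + 1 - q : ℕ) : ℝ)) ^ q ≤ (n.descFactorial q : ℝ) := by exact_mod_cast h2
    have h3 : ((n - q : ℕ) : ℝ) ^ q ≤ (n.descFactorial q : ℝ) := by
      refine le_trans ?_ h2'
      gcongr
      omega
    rwa [Nat.cast_sub hq] at h3
  have hn' : (0 : ℝ) < n := by exact_mod_cast hn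
  have h4 : 1 - (q : ℝ) ^ 2 / n ≤ (1 - (q : ℝ) / n) ^ q := by
    have h5 : -2 ≤ -((q : ℝ) / n) := by
      have : (q : ℝ) / n ≤ 1 := by
        rw [div_le_one hn']; exact_mod_cast hq
      linarith
    have h6 := one_add_mul_le_pow h5 q
    calc 1 - (q : ℝ) ^ 2 / n = 1 + (q : ℝ) * -((q : ℝ) / n) := by ring
      _ ≤ (1 + -((q : ℝ) / n)) ^ q := h6
      _ = (1 - (q : ℝ) / n) ^ q := by ring_nf
  calc (2 * n : ℝ) ^ q * (1 - (q : ℝ) ^ 2 / n) ≤ (2 * n : ℝ) ^ q * (1 - (q : ℝ) / n) ^ q := by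
        gcongr
    _ = 2 ^ q * ((n : ℝ) - q) ^ q := by
        rw [← mul_pow, ← mul_pow]; congr 1; field_simp
    _ ≤ _ := by gcongr

/-- The key estimate. -/
theorem estimate {V n q : ℕ} (h1 : 1 < V) (h2 : 1 < V + 1) (hq : 1 ≤ q) (hn : 4 * q ≤ n)
    (hn2 : 2 * q ^ 2 ≤ n) (hV : 16 * n ^ 2 ≤ V) :
    ∃ L : ℕ, ∃ S : ℤ, (yn h2 (n + 1) : ℤ) = yn h1 (n - q + 2) * L + S ∧
      (2 * V : ℝ) * q.factorial * S ≤ (yn h1 (n - q + 2) : ℝ) * ((2 * n : ℝ) ^ q * (1 + 1 / n)) ∧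
      (yn h1 (n - q + 2) : ℝ) * ((2 * n : ℝ) ^ q * (1 - 2 * (q : ℝ) ^ 2 / n)) ≤
        (2 * V : ℝ) * q.factorial * S := by
  obtain ⟨j, rfl⟩ : ∃ j, q = j + 1 := ⟨q - 1, by omega⟩
  obtain ⟨m, hm⟩ : ∃ m, n = m + j := ⟨n - j, by omega⟩
  have hn0 : 0 < n := by omega
  have hnR : (1 : ℝ) ≤ n := by exact_mod_cast hn0
  have hVn : 4 * n ≤ 2 * V - 1 := by
    have : n ≤ n ^ 2 := Nat.le_self_pow (by norm_num) n
    omega
  obtain ⟨L, hL⟩ := division h1 h2 m j (by omega)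
  have hb := remainder_bounds h1 m j (by omega) (by omega) (by rw [← hm]; exact hVn)
  rw [← hm] at hL hb
  set S : ℤ := (∑ k ∈ range m, eC (n + 1) k * (yn h1 (k + 1) : ℤ) -
        ∑ r ∈ range j, eC (n + 1) (m + 1 + r) * (yn h1 (m - r) : ℤ)) with hS
  obtain ⟨hb1, hb2⟩ := hb
  have hidx : n - (j + 1) + 2 = m + 1 := by omega
  rw [hidx]
  refine ⟨L, S, hL, ?_, ?_⟩
  · -- upper bound
    have hw : ((2 * V - 1 : ℕ) : ℝ) = 2 * V - 1 := by
      rw [Nat.cast_sub (by omega)]; push_cast; ring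
    have hb1R : (2 * (V : ℝ) - 1) * S ≤ (2 * V - 1 + 4 * n) *
        (((2 * n).choose (j + 1) : ℕ) * (yn h1 m : ℝ)) := by
      have : (((2 * V - 1 : ℕ) : ℤ) * S : ℝ) ≤ (((2 * V - 1 + 4 * n : ℕ) : ℤ) : ℝ) *
        (((2 * n).choose (j + 1) : ℕ) * (yn h1 m : ℝ)) := by exact_mod_cast hb1
      rw [Int.cast_natCast, Int.cast_natCast, Nat.cast_add, hw] at this
      push_cast at this ⊢
      linarith
    have hy : (2 * (V : ℝ) - 1) * yn h1 m ≤ yn h1 (m + 1) := by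
      have := yn_step h1 m
      have : (((2 * V - 1) * yn h1 m : ℕ) : ℝ) ≤ yn h1 (m + 1) := by exact_mod_cast this
      rw [Nat.cast_mul, hw] at this
      exact this
    have hf := factorial_choose_le n (j + 1)
    push_cast at hf
    set w : ℝ := 2 * (V : ℝ) - 1 with hwdef
    have hVR : (16 : ℝ) * n ^ 2 ≤ V := by exact_mod_cast hV
    have hn2 : (n : ℝ) ≤ (n : ℝ) ^ 2 := by
      rw [sq]; exact le_mul_of_one_le_right (by linarith) hnR
    have hwn : 31 * (n : ℝ) ^ 2 ≤ w := by rw [hwdef]; linarith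
    have hwpos : 0 < w := by linarith
    have hc0 : (0 : ℝ) ≤ ((2 * n).choose (j + 1) : ℝ) := by positivity
    have hK0 : (0 : ℝ) ≤ (yn h1 (m + 1) : ℝ) := by positivity
    -- w * w * S ≤ (w + 4n) * c * K
    have s1 : w * (w * S) ≤ (w + 4 * n) * (((2 * n).choose (j + 1) : ℝ) * yn h1 (m + 1)) := by
      calc w * (w * S) ≤ w * ((w + 4 * n) * (((2 * n).choose (j + 1) : ℕ) * (yn h1 m : ℝ))) := by
            gcongr
        _ = (w + 4 * n) * (((2 * n).choose (j + 1) : ℝ) * (w * yn h1 m)) := by ring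
        _ ≤ _ := by gcongr
    have s2 : (w + 1) * (w + 4 * n) ≤ w * w * (1 + 1 / n) := by
      have e1 : w * w * (1 + 1 / n) = w * w + w * (w / n) := by field_simp
      have e2 : 31 * (n : ℝ) ≤ w / n := by
        rw [le_div_iff₀ (by linarith)]; nlinarith
      have e3 : w * (31 * n) ≤ w * (w / n) := by gcongr
      rw [e1]
      nlinarith
    have hfact : (0 : ℝ) ≤ ((j + 1).factorial : ℝ) := by positivity
    have hVw : 2 * (V : ℝ) = w + 1 := by rw [hwdef]; ring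
    rw [hVw]
    have s3 : w * w * ((w + 1) * (j + 1).factorial * S) ≤
        w * w * (yn h1 (m + 1) * ((2 * n : ℝ) ^ (j + 1) * (1 + 1 / n))) := by
      calc w * w * ((w + 1) * (j + 1).factorial * S)
          = (w + 1) * (j + 1).factorial * (w * (w * S)) := by ring
        _ ≤ (w + 1) * (j + 1).factorial *
            ((w + 4 * n) * (((2 * n).choose (j + 1) : ℝ) * yn h1 (m + 1))) := by gcongr
        _ = ((w + 1) * (w + 4 * n)) *
            (((j + 1).factorial * ((2 * n).choose (j + 1) : ℝ)) * yn h1 (m + 1)) := by ring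
        _ ≤ (w * w * (1 + 1 / n)) * ((2 * n : ℝ) ^ (j + 1) * yn h1 (m + 1)) := by gcongr
        _ = _ := by ring
    exact le_of_mul_le_mul_left s3 (by positivity)
  · -- lower bound
    have hb2R : ((2 : ℝ) ^ (j + 1) * (n.choose (j + 1) : ℕ) - ((2 * n).choose j : ℕ)) *
        (yn h1 m : ℝ) ≤ S := by exact_mod_cast hb2
    have hy : (yn h1 (m + 1) : ℝ) ≤ 2 * V * yn h1 m := by
      have : yn h1 (m + 1) ≤ 2 * V * yn h1 m := by
        obtain ⟨t, rfl⟩ : ∃ t, m = t + 1 := ⟨m - 1, by omega⟩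
        have h' : yn h1 (t + 1 + 1) + yn h1 t = 2 * V * yn h1 (t + 1) := yn_succ_succ h1 t
        rw [← h']
        exact Nat.le_add_right _ _
      exact_mod_cast this
    have hg := factorial_choose_ge (n := n) (q := j + 1) (by omega) hn0
    have hf := factorial_choose_le n j
    push_cast at hg hf
    have hfj : ((j + 1).factorial : ℝ) = (j + 1) * j.factorial := by
      rw [Nat.factorial_succ]; push_cast; ring
    have s1 : (j + 1).factorial * (((2 * n).choose j : ℕ) : ℝ) ≤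
        (2 * n : ℝ) ^ (j + 1) * (((j : ℝ) + 1) ^ 2 / n) := by
      calc (j + 1).factorial * (((2 * n).choose j : ℕ) : ℝ)
          = (j + 1) * (j.factorial * ((2 * n).choose j : ℝ)) := by rw [hfj]; ring
        _ ≤ (j + 1) * (2 * n : ℝ) ^ j := by gcongr
        _ ≤ (2 * n : ℝ) ^ (j + 1) * (((j : ℝ) + 1) ^ 2 / n) := by
            rw [pow_succ]
            have : (2 * n : ℝ) ^ j * (2 * n) * (((j : ℝ) + 1) ^ 2 / n) =
              (2 * (j + 1)) * ((j + 1) * (2 * n : ℝ) ^ j) := by field_simp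
            rw [this]
            have h5 : (0 : ℝ) ≤ (j + 1) * (2 * n : ℝ) ^ j := by positivity
            have h6 : (1 : ℝ) ≤ 2 * (j + 1) := by
              have : (0 : ℝ) ≤ j := by positivity
              linarith
            exact le_mul_of_one_le_left h5 h6
    have s2 : (2 * n : ℝ) ^ (j + 1) * (1 - 2 * ((j : ℝ) + 1) ^ 2 / n) ≤
        (j + 1).factorial * ((2 : ℝ) ^ (j + 1) * (n.choose (j + 1) : ℕ) -
          ((2 * n).choose j : ℕ)) := by
      have e1 : (2 * n : ℝ) ^ (j + 1) * (1 - 2 * ((j : ℝ) + 1) ^ 2 / n) =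
        (2 * n : ℝ) ^ (j + 1) * (1 - ((j : ℝ) + 1) ^ 2 / n) -
          (2 * n : ℝ) ^ (j + 1) * (((j : ℝ) + 1) ^ 2 / n) := by ring
      have e2 : ((j + 1).factorial : ℝ) * ((2 : ℝ) ^ (j + 1) * (n.choose (j + 1) : ℕ) -
          ((2 * n).choose j : ℕ)) =
        2 ^ (j + 1) * ((j + 1).factorial * (n.choose (j + 1) : ℝ)) -
          (j + 1).factorial * (((2 * n).choose j : ℕ) : ℝ) := by ring
      rw [e1, e2]
      linarith
    set X : ℝ := (2 : ℝ) ^ (j + 1) * (n.choose (j + 1) : ℕ) - ((2 * n).choose j : ℕ) with hX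
    have hY0 : (0 : ℝ) ≤ yn h1 m := by positivity
    have h : (0 : ℝ) ≤ (2 * n : ℝ) ^ (j + 1) * (1 - 2 * ((j : ℝ) + 1) ^ 2 / n) := by
      have h2 : (2 * ((j : ℝ) + 1) ^ 2) ≤ n := by exact_mod_cast hn2
      have h3 : 2 * ((j : ℝ) + 1) ^ 2 / n ≤ 1 := by
        rw [div_le_one (by linarith)]; exact h2
      apply mul_nonneg (by positivity)
      linarith
    push_cast
    have s4 : (2 * (V : ℝ)) * (j + 1).factorial * (X * yn h1 m) ≤
        (2 * (V : ℝ)) * (j + 1).factorial * S := by gcongr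
    · calc (yn h1 (m + 1) : ℝ) * ((2 * n : ℝ) ^ (j + 1) * (1 - 2 * ((j : ℝ) + 1) ^ 2 / n))
          ≤ (2 * V * yn h1 m) * ((2 * n : ℝ) ^ (j + 1) * (1 - 2 * ((j : ℝ) + 1) ^ 2 / n)) := by
            gcongr
        _ ≤ (2 * V * yn h1 m) * ((j + 1).factorial * X) := by gcongr
        _ = (2 * (V : ℝ)) * (j + 1).factorial * (X * yn h1 m) := by ring
        _ ≤ _ := s4

end Pool.Agent.H689R2
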