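import Mathlib

set_option autoImplicit false

namespace Pool.Agent.H689R2

/-- auxiliary form: the product over all signs of `u ± x ± y ± z`, written in terms of the
squares `X = x^2`, `Y = y^2`, `Z = z^2`. -/
def rcK {R : Type*} [CommRing R] (u X Y Z : R) : R :=
  ((u ^ 2 + Y + Z - X) ^ 2 + 4 * u ^ 2 * Z - 4 * Y * u ^ 2 - 4 * Y * Z) ^ 2
    - Z * (8 * u * Y - 4 * (u ^ 2 + Y + Z - X) * u) ^ 2

/-- The relation-combining polynomial for three squares and one inequality. -/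
def rcM {R : Type*} [CommRing R] (A1 A2 A3 r m : R) : R :=
  rcK (m - (2 * r - 1) * (1 + A1 + A2 + A3) ^ 3) ((2 * r - 1) ^ 2 * A1)
    ((2 * r - 1) ^ 2 * (1 + A1 + A2 + A3) ^ 2 * A2)
    ((2 * r - 1) ^ 2 * (1 + A1 + A2 + A3) ^ 4 * A3)

theorem prod8 {R : Type*} [CommRing R] (u x y z : R) :
    rcK u (x ^ 2) (y ^ 2) (z ^ 2) =
    (u - x - y - z) * (u - x - y + z) * (u - x + y - z) * (u - x + y + z) *
      ((u + x - y - z) * (u + x - y + z) * (u + x + y - z) * (u + x + y + z)) := by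
  unfold rcK
  ring

theorem rcK_cast (u X Y Z : ℤ) : ((rcK u X Y Z : ℤ) : ℝ) = rcK (u : ℝ) X Y Z := by
  unfold rcK; push_cast; rfl

theorem isSquare_of_rat {A : ℤ} {r : ℝ} (h : r ^ 2 = A) {q : ℚ} (hq : r = q) : IsSquare A := by
  rw [← Rat.isSquare_intCast_iff]
  refine ⟨q, ?_⟩
  have h1 : ((q * q : ℚ) : ℝ) = ((A : ℚ) : ℝ) := by
    push_cast
    rw [← hq, ← h]; ring
  exact_mod_cast h1.symm

theorem bndmul {r1 r2 a b c : ℝ} (e1 : r1 ^ 2 = a) (e2 : r2 ^ 2 = b) (h : a + b ≤ 2 * c) :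
    |r1 * r2| ≤ c := by
  have h1 := sq_nonneg (r1 + r2)
  have h2 := sq_nonneg (r1 - r2)
  have h3 : (r1 + r2) ^ 2 = r1 ^ 2 + r2 ^ 2 + 2 * (r1 * r2) := by ring
  have h4 : (r1 - r2) ^ 2 = r1 ^ 2 + r2 ^ 2 - 2 * (r1 * r2) := by ring
  rw [abs_le]; constructor <;> linarith

/-- If `r1 + W r2 + W^2 r3` is rational, with `r_i^2 = A_i` positive integers and `W` larger than
`A_1 + A_2 + A_3`, then all `A_i` are perfect squares. -/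
theorem squares_of_rat_sum {A1 A2 A3 : ℤ} (h1 : 0 < A1) (h2 : 0 < A2) (h3 : 0 < A3)
    {r1 r2 r3 : ℝ} (e1 : r1 ^ 2 = A1) (e2 : r2 ^ 2 = A2) (e3 : r3 ^ 2 = A3) {s : ℚ}
    (hs : r1 + (1 + A1 + A2 + A3) * r2 + (1 + A1 + A2 + A3) ^ 2 * r3 = s) :
    IsSquare A1 ∧ IsSquare A2 ∧ IsSquare A3 := by
  have p1 : (1 : ℝ) ≤ A1 := by exact_mod_cast h1
  have p2 : (1 : ℝ) ≤ A2 := by exact_mod_cast h2
  have p3 : (1 : ℝ) ≤ A3 := by exact_mod_cast h3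
  obtain ⟨W, hW⟩ : ∃ W : ℤ, W = 1 + A1 + A2 + A3 := ⟨_, rfl⟩
  have hWr : (W : ℝ) = 1 + A1 + A2 + A3 := by rw [hW]; push_cast; ring
  rw [← hWr] at hs
  have hW1 : (A1 : ℝ) ≤ W - 1 := by linarith
  have hW2 : (A2 : ℝ) ≤ W - 1 := by linarith
  have hW3 : (A3 : ℝ) ≤ W - 1 := by linarith
  have hW4 : (4 : ℝ) ≤ W := by linarith
  -- bounds |r_i| ≤ W - 1, |r_i r_j| ≤ W - 1
  have b12 : |r1 * r2| ≤ W - 1 := bndmul e1 e2 (by linarith)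
  have b13 : |r1 * r3| ≤ W - 1 := bndmul e1 e3 (by linarith)
  have b23 : |r2 * r3| ≤ W - 1 := bndmul e2 e3 (by linarith)
  have hWpos : (0 : ℝ) < W := by linarith
  -- q1 = r1 r2 + s W r3 is rational
  have hq : ∃ q1 : ℚ, r1 * r2 + s * W * r3 = q1 := by
    refine ⟨(s ^ 2 + W ^ 4 * A3 - A1 - W ^ 2 * A2) / (2 * W), ?_⟩
    push_cast
    rw [eq_div_iff (by linarith), ← e1, ← e2, ← e3]
    have : r1 = s - W * r2 - W ^ 2 * r3 := by linarith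
    rw [this]; ring
  obtain ⟨q1, hq1⟩ := hq
  -- q1 ≠ 0
  have hrr : r1 * r2 + s * W * r3 = r1 * r2 + W * (r1 * r3) + W ^ 2 * (r2 * r3) + W ^ 3 * A3 := by
    rw [← hs, ← e3]; ring
  have hq1pos : 0 < (q1 : ℝ) := by
    rw [← hq1, hrr]
    have c1 := (abs_le.1 b12).1
    have c2 := (abs_le.1 b13).1
    have c3 := (abs_le.1 b23).1
    have d2 : W * (r1 * r3) ≥ -(W * (W - 1)) := by
      have : (W : ℝ) * (r1 * r3) ≥ (W : ℝ) * (-(W - 1)) :=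
        mul_le_mul_of_nonneg_left c2 (by positivity)
      linarith
    have d3 : (W : ℝ) ^ 2 * (r2 * r3) ≥ -(W ^ 2 * (W - 1)) := by
      have : (W : ℝ) ^ 2 * (r2 * r3) ≥ (W : ℝ) ^ 2 * (-(W - 1)) :=
        mul_le_mul_of_nonneg_left c3 (by positivity)
      linarith
    have d4 : (W : ℝ) ^ 3 * A3 ≥ W ^ 3 := le_mul_of_one_le_right (by positivity) p3
    have d5 : (W : ℝ) ^ 3 - (W - 1) - W * (W - 1) - W ^ 2 * (W - 1) = 1 := by ring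
    linarith
  -- s ≠ 0
  have hs0 : (s : ℝ) ≠ 0 := by
    intro h0
    rw [h0] at hs
    have h4 : (W : ℝ) ^ 2 * r3 = -(r1 + W * r2) := by linarith
    have h5 : ((W : ℝ) ^ 2 * r3) ^ 2 = r1 ^ 2 + 2 * W * (r1 * r2) + W ^ 2 * r2 ^ 2 := by
      rw [h4]; ring
    rw [mul_pow, e1, e2, e3] at h5
    have c1 := (abs_le.1 b12).2
    have d4 : ((W : ℝ) ^ 2) ^ 2 * A3 ≥ (W ^ 2) ^ 2 := le_mul_of_one_le_right (by positivity) p3
    have d5 : (W : ℝ) ^ 2 * A2 ≤ W ^ 2 * (W - 1) := mul_le_mul_of_nonneg_left hW2 (by positivity)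
    have d6 : 2 * (W : ℝ) * (r1 * r2) ≤ 2 * W * (W - 1) :=
      mul_le_mul_of_nonneg_left c1 (by positivity)
    have d7 : ((W : ℝ) ^ 2) ^ 2 - (W - 1) - 2 * W * (W - 1) - W ^ 2 * (W - 1) =
      W ^ 3 * (W - 1) - W ^ 2 + W + 1 := by ring
    have d8 : (W : ℝ) ^ 2 * 1 ≤ W ^ 2 * (W * (W - 1)) :=
      mul_le_mul_of_nonneg_left (by nlinarith) (by positivity)
    have d9 : (W : ℝ) ^ 3 * (W - 1) = W ^ 2 * (W * (W - 1)) := by ring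
    linarith
  have hsW : (s : ℝ) * W ≠ 0 := mul_ne_zero hs0 hWpos.ne'
  -- r3 is rational
  have hr3 : ∃ q : ℚ, r3 = q := by
    refine ⟨(q1 ^ 2 + s ^ 2 * W ^ 2 * A3 - A1 * A2) / (2 * q1 * s * W), ?_⟩
    push_cast
    rw [eq_div_iff (by
      have := mul_ne_zero (mul_ne_zero (mul_ne_zero two_ne_zero hq1pos.ne') hs0) hWpos.ne'
      exact this), ← e1, ← e2, ← e3, ← hq1]
    ring
  obtain ⟨t3, ht3⟩ := hr3
  -- s' = r1 + W r2 rational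
  have hs' : r1 + W * r2 = ((s - W ^ 2 * t3 : ℚ) : ℝ) := by
    push_cast; rw [← ht3]; linarith
  have h12 : r1 * r2 = ((q1 - s * W * t3 : ℚ) : ℝ) := by
    push_cast; rw [← ht3]; linarith
  have hs'0 : ((s - W ^ 2 * t3 : ℚ) : ℝ) ≠ 0 := by
    intro h0
    rw [h0] at hs'
    have h4 : r1 = -(W * r2) := by linarith
    have h5 : r1 ^ 2 = W ^ 2 * r2 ^ 2 := by rw [h4]; ring
    rw [e1, e2] at h5
    have d4 : (W : ℝ) ^ 2 * A2 ≥ W ^ 2 := le_mul_of_one_le_right (by positivity) p2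
    have d5 : (W : ℝ) * 1 ≤ W ^ 2 := by
      rw [sq]; exact mul_le_mul_of_nonneg_left (by linarith) (by linarith)
    linarith
  have hr1 : ∃ q : ℚ, r1 = q := by
    refine ⟨(A1 + W * (q1 - s * W * t3)) / (s - W ^ 2 * t3), ?_⟩
    rw [Rat.cast_div, eq_div_iff hs'0, ← hs']
    push_cast
    have h12' : (q1 : ℝ) - s * W * t3 = r1 * r2 := by rw [h12]; push_cast; ring
    rw [h12', ← e1]; ring
  obtain ⟨t1, ht1⟩ := hr1
  have hr2 : r2 = (((s - W ^ 2 * t3 - t1) / W : ℚ) : ℝ) := by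
    rw [Rat.cast_div, Rat.cast_sub, ← hs', ← ht1]
    push_cast
    field_simp
    ring
  exact ⟨isSquare_of_rat e1 ht1, isSquare_of_rat e2 hr2, isSquare_of_rat e3 ht3⟩

theorem wpos {W r1 r2 r3 : ℝ} (hW : 4 ≤ W) (c1 : -(W - 1) ≤ r1) (c2 : -(W - 1) ≤ r2)
    (c3 : -(W - 1) ≤ r3) : 0 < W ^ 3 + (r1 + W * r2 + W ^ 2 * r3) := by
  have d2 : W * (-(W - 1)) ≤ W * r2 := mul_le_mul_of_nonneg_left c2 (by linarith)
  have d3 : W ^ 2 * (-(W - 1)) ≤ W ^ 2 * r3 := mul_le_mul_of_nonneg_left c3 (by positivity)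
  have d4 : W ^ 3 + (-(W - 1) + W * (-(W - 1)) + W ^ 2 * (-(W - 1))) = 1 := by ring
  linarith

theorem bnd0 {W t : ℝ} {A : ℤ} (ht : t ^ 2 = A) (hA : (A : ℝ) ≤ W - 1) (hA1 : 1 ≤ (A : ℝ)) :
    -(W - 1) ≤ t := by
  by_contra hlt
  push Not at hlt
  have h1 : 1 ≤ W - 1 := by linarith
  have h2 : (W - 1) * (W - 1) < (-t) * (-t) := by
    apply mul_lt_mul'' <;> linarith
  have h3 : (W - 1) * 1 ≤ (W - 1) * (W - 1) := mul_le_mul_of_nonneg_left h1 (by linarith)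
  have h4 : (-t) * (-t) = t ^ 2 := by ring
  linarith

theorem rcM_complete {A1 A2 A3 r : ℤ} (s1 : IsSquare A1) (s2 : IsSquare A2) (s3 : IsSquare A3)
    (h1 : 0 < A1) (h2 : 0 < A2) (h3 : 0 < A3)
    (hr : 0 < r) : ∃ m : ℕ, rcM A1 A2 A3 r (m : ℤ) = 0 := by
  obtain ⟨a, ha⟩ : ∃ a : ℤ, 0 ≤ a ∧ A1 = a ^ 2 := by
    obtain ⟨c, hc⟩ := s1
    exact ⟨|c|, abs_nonneg c, by rw [hc, sq_abs]; ring⟩
  obtain ⟨b, hb⟩ : ∃ a : ℤ, 0 ≤ a ∧ A2 = a ^ 2 := by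
    obtain ⟨c, hc⟩ := s2
    exact ⟨|c|, abs_nonneg c, by rw [hc, sq_abs]; ring⟩
  obtain ⟨c, hc⟩ : ∃ a : ℤ, 0 ≤ a ∧ A3 = a ^ 2 := by
    obtain ⟨c, hc⟩ := s3
    exact ⟨|c|, abs_nonneg c, by rw [hc, sq_abs]; ring⟩
  obtain ⟨ha0, ha⟩ := ha
  obtain ⟨hb0, hb⟩ := hb
  obtain ⟨hc0, hc⟩ := hc
  set W := 1 + A1 + A2 + A3 with hW
  have hW0 : 0 < W := by linarith
  have hm : 0 ≤ (2 * r - 1) * (W ^ 3 + a + W * b + W ^ 2 * c) := by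
    apply mul_nonneg (by linarith)
    positivity
  obtain ⟨m, hm'⟩ := Int.eq_ofNat_of_zero_le hm
  refine ⟨m, ?_⟩
  unfold rcM
  rw [← hW]
  have e1 : (2 * r - 1) ^ 2 * A1 = ((2 * r - 1) * a) ^ 2 := by rw [ha]; ring
  have e2 : (2 * r - 1) ^ 2 * W ^ 2 * A2 = ((2 * r - 1) * W * b) ^ 2 := by rw [hb]; ring
  have e3 : (2 * r - 1) ^ 2 * W ^ 4 * A3 = ((2 * r - 1) * W ^ 2 * c) ^ 2 := by rw [hc]; ring
  rw [e1, e2, e3, prod8]
  have e4 : (m : ℤ) - (2 * r - 1) * W ^ 3 - (2 * r - 1) * a - (2 * r - 1) * W * b -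
      (2 * r - 1) * W ^ 2 * c = 0 := by
    have : (m : ℤ) = (2 * r - 1) * (W ^ 3 + a + W * b + W ^ 2 * c) := by rw [hm']
    rw [this]; ring
  rw [e4]; simp

theorem rcM_sound_aux {A1 A2 A3 r : ℤ} (h1 : 0 < A1) (h2 : 0 < A2) (h3 : 0 < A3) {m : ℕ}
    {r1 r2 r3 : ℝ} (e1 : r1 ^ 2 = A1) (e2 : r2 ^ 2 = A2) (e3 : r3 ^ 2 = A3)
    (hmm : (m : ℝ) = (2 * (r : ℝ) - 1) * ((1 + (A1 : ℝ) + A2 + A3) ^ 3 +
      (r1 + (1 + (A1 : ℝ) + A2 + A3) * r2 + (1 + (A1 : ℝ) + A2 + A3) ^ 2 * r3))) :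
    (IsSquare A1 ∧ IsSquare A2 ∧ IsSquare A3) ∧ 0 < r := by
  have p1 : (1 : ℝ) ≤ A1 := by exact_mod_cast h1
  have p2 : (1 : ℝ) ≤ A2 := by exact_mod_cast h2
  have p3 : (1 : ℝ) ≤ A3 := by exact_mod_cast h3
  set W : ℝ := 1 + A1 + A2 + A3 with hW
  set T : ℝ := 2 * r - 1 with hT
  have hTne : T ≠ 0 := by
    intro h0
    have : (2 * r - 1 : ℤ) = 0 := by
      have : ((2 * r - 1 : ℤ) : ℝ) = 0 := by push_cast; rw [← hT]; exact h0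
      exact_mod_cast this
    omega
  have hrat : r1 + (1 + A1 + A2 + A3) * r2 + (1 + A1 + A2 + A3) ^ 2 * r3 =
      (((m : ℚ) / (2 * r - 1) - (1 + A1 + A2 + A3) ^ 3 : ℚ) : ℝ) := by
    push_cast
    rw [← hW, ← hT, hmm]
    field_simp
    ring
  refine ⟨squares_of_rat_sum h1 h2 h3 e1 e2 e3 hrat, ?_⟩
  have hWbig : 4 ≤ W := by rw [hW]; linarith
  have c1 := bnd0 e1 (W := W) (by rw [hW]; linarith) p1
  have c2 := bnd0 e2 (W := W) (by rw [hW]; linarith) p2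
  have c3 := bnd0 e3 (W := W) (by rw [hW]; linarith) p3
  have hpos : 0 < W ^ 3 + (r1 + W * r2 + W ^ 2 * r3) := wpos hWbig c1 c2 c3
  have hm0 : (0 : ℝ) ≤ m := by positivity
  have hT0 : 0 ≤ T := by
    by_contra hlt
    push Not at hlt
    have := mul_neg_of_neg_of_pos hlt hpos
    rw [← hmm] at this
    exact absurd hm0 (not_le.2 this)
  have h5 : (0 : ℝ) < r := by
    have h6 : 0 ≤ 2 * (r : ℝ) - 1 := by rw [← hT]; exact hT0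
    linarith
  exact_mod_cast h5

theorem rcM_sound {A1 A2 A3 r : ℤ} (h1 : 0 < A1) (h2 : 0 < A2) (h3 : 0 < A3)
    {m : ℕ} (hm : rcM A1 A2 A3 r (m : ℤ) = 0) :
    (IsSquare A1 ∧ IsSquare A2 ∧ IsSquare A3) ∧ 0 < r := by
  have p1 : (0 : ℝ) ≤ A1 := by exact_mod_cast h1.le
  have p2 : (0 : ℝ) ≤ A2 := by exact_mod_cast h2.le
  have p3 : (0 : ℝ) ≤ A3 := by exact_mod_cast h3.le
  obtain ⟨x, hx⟩ : ∃ x : ℝ, x ^ 2 = A1 := ⟨√A1, Real.sq_sqrt p1⟩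
  obtain ⟨y, hy⟩ : ∃ x : ℝ, x ^ 2 = A2 := ⟨√A2, Real.sq_sqrt p2⟩
  obtain ⟨z, hz⟩ : ∃ x : ℝ, x ^ 2 = A3 := ⟨√A3, Real.sq_sqrt p3⟩
  have hm' : ((rcM A1 A2 A3 r (m : ℤ) : ℤ) : ℝ) = 0 := by rw [hm]; simp
  have hm'' : rcK ((m : ℝ) - (2 * (r : ℝ) - 1) * (1 + (A1 : ℝ) + A2 + A3) ^ 3)
      ((2 * (r : ℝ) - 1) ^ 2 * (A1 : ℝ))
      ((2 * (r : ℝ) - 1) ^ 2 * (1 + (A1 : ℝ) + A2 + A3) ^ 2 * (A2 : ℝ))
      ((2 * (r : ℝ) - 1) ^ 2 * (1 + (A1 : ℝ) + A2 + A3) ^ 4 * (A3 : ℝ)) = 0 := by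
    rw [← hm']
    unfold rcM
    rw [rcK_cast]
    push_cast
    rfl
  have key := prod8 ((m : ℝ) - (2 * (r : ℝ) - 1) * (1 + (A1 : ℝ) + A2 + A3) ^ 3)
    ((2 * (r : ℝ) - 1) * x) ((2 * (r : ℝ) - 1) * (1 + (A1 : ℝ) + A2 + A3) * y)
    ((2 * (r : ℝ) - 1) * (1 + (A1 : ℝ) + A2 + A3) ^ 2 * z)
  rw [mul_pow, mul_pow, mul_pow, mul_pow, mul_pow, hx, hy, hz, ← pow_mul, hm''] at key
  have hx' : (-x) ^ 2 = (A1 : ℝ) := by rw [neg_sq]; exact hx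
  have hy' : (-y) ^ 2 = (A2 : ℝ) := by rw [neg_sq]; exact hy
  have hz' : (-z) ^ 2 = (A3 : ℝ) := by rw [neg_sq]; exact hz
  rcases mul_eq_zero.1 key.symm with k | k
  · rcases mul_eq_zero.1 k with k | k
    · rcases mul_eq_zero.1 k with k | k
      · rcases mul_eq_zero.1 k with k | k
        · exact rcM_sound_aux h1 h2 h3 hx hy hz (by linear_combination k)
        · exact rcM_sound_aux h1 h2 h3 hx hy hz' (by linear_combination k)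
      · exact rcM_sound_aux h1 h2 h3 hx hy' hz (by linear_combination k)
    · exact rcM_sound_aux h1 h2 h3 hx hy' hz' (by linear_combination k)
  · rcases mul_eq_zero.1 k with k | k
    · rcases mul_eq_zero.1 k with k | k
      · rcases mul_eq_zero.1 k with k | k
        · exact rcM_sound_aux h1 h2 h3 hx' hy hz (by linear_combination k)
        · exact rcM_sound_aux h1 h2 h3 hx' hy hz' (by linear_combination k)
      · exact rcM_sound_aux h1 h2 h3 hx' hy' hz (by linear_combination k)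
    · exact rcM_sound_aux h1 h2 h3 hx' hy' hz' (by linear_combination k)

end Pool.Agent.H689R2
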