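import Mathlib
import Pool.Agent.H689R2.Real
import Pool.Agent.H689R2.MainL
import Pool.Agent.H689R2.RelComb

set_option autoImplicit false

namespace Pool.Agent.H689R2

open Pell Finset

theorem idx_cases {a M c : ℕ} (h : a ≡ c [MOD M]) (hc : c < M) : a = c ∨ c + M ≤ a := by
  unfold Nat.ModEq at h
  rw [Nat.mod_eq_of_lt hc] at h
  rcases Nat.lt_or_ge a M with h1 | h1
  · left; rwa [Nat.mod_eq_of_lt h1] at h
  · right
    have h2 := Nat.div_add_mod a M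
    have h3 : 1 ≤ a / M := (Nat.one_le_div_iff (by omega)).2 h1
    have h4 : M * 1 ≤ M * (a / M) := Nat.mul_le_mul_left _ h3
    omega

theorem W_bounds {n q : ℕ} (hn1 : 1 < n) :
    (yn hn1 (q + 3) : ℝ) ≤ (2 * n : ℝ) ^ (q + 2) ∧
    (2 * n : ℝ) ^ (q + 2) * (1 - ((q : ℝ) + 2) / (2 * n)) ≤ (yn hn1 (q + 3) : ℝ) := by
  constructor
  · exact_mod_cast yn_upper hn1 (q + 2)
  · have h1 := yn_lower hn1 (q + 2)
    have hw : ((2 * n - 1 : ℕ) : ℝ) = 2 * n - 1 := by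
      rw [Nat.cast_sub (by omega)]; push_cast; ring
    have h2 : (2 * (n : ℝ) - 1) ^ (q + 2) ≤ yn hn1 (q + 3) := by
      rw [← hw]; exact_mod_cast h1
    have hnR : (1 : ℝ) < n := by exact_mod_cast hn1
    refine le_trans ?_ h2
    have h5 : -2 ≤ -(1 / (2 * (n : ℝ))) := by
      have : 1 / (2 * (n : ℝ)) ≤ 1 := by
        rw [div_le_one (by linarith)]; linarith
      linarith
    have h6 := one_add_mul_le_pow h5 (q + 2)
    calc (2 * n : ℝ) ^ (q + 2) * (1 - ((q : ℝ) + 2) / (2 * n))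
        = (2 * n : ℝ) ^ (q + 2) * (1 + ((q + 2 : ℕ) : ℝ) * -(1 / (2 * (n : ℝ)))) := by
          push_cast; ring
      _ ≤ (2 * n : ℝ) ^ (q + 2) * (1 + -(1 / (2 * (n : ℝ)))) ^ (q + 2) := by gcongr
      _ = (2 * (n : ℝ) - 1) ^ (q + 2) := by
          rw [← mul_pow]; congr 1; field_simp; ring

/-- final form of the estimate when `V = yn n (q+3)`. -/
theorem final_est {V n q : ℕ} (hn1 : 1 < n) (h1 : 1 < V) (hq : 1 ≤ q)
    (hn : 4 * q + 4 ≤ n) (hn2 : 2 * q ^ 2 ≤ n) (hVy : V = yn hn1 (q + 3)) {S : ℤ}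
    (hS1 : (2 * V : ℝ) * q.factorial * S ≤
      (yn h1 (n - q + 2) : ℝ) * ((2 * n : ℝ) ^ q * (1 + 1 / n)))
    (hS2 : (yn h1 (n - q + 2) : ℝ) * ((2 * n : ℝ) ^ q * (1 - 2 * (q : ℝ) ^ 2 / n)) ≤
        (2 * V : ℝ) * q.factorial * S) :
    |8 * (n : ℝ) ^ 2 * q.factorial * S - yn h1 (n - q + 2)| ≤
      5 * (q : ℝ) ^ 2 / n * yn h1 (n - q + 2) := by
  set K : ℝ := (yn h1 (n - q + 2) : ℝ) with hK
  have hKpos : 0 < K := by
    rw [hK]; exact_mod_cast yn_pos h1 (by omega)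
  have hnR : (1 : ℝ) < n := by exact_mod_cast hn1
  have hqR : (1 : ℝ) ≤ q := by exact_mod_cast hq
  have hVpos : (0 : ℝ) < V := by exact_mod_cast (by omega : 0 < V)
  obtain ⟨w1, w2⟩ := W_bounds (q := q) hn1
  rw [← hVy] at w1 w2
  set W : ℝ := (2 * n : ℝ) ^ (q + 2) with hW
  have hWpos : 0 < W := by positivity
  set a : ℝ := 8 * (n : ℝ) ^ 2 * q.factorial * S with ha
  have hWq : W = 4 * n ^ 2 * (2 * n : ℝ) ^ q := by rw [hW, pow_add]; ring
  have u1 : V * a ≤ K * (W * (1 + 1 / n)) := by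
    calc V * a = 4 * n ^ 2 * ((2 * V : ℝ) * q.factorial * S) := by rw [ha]; ring
      _ ≤ 4 * n ^ 2 * (K * ((2 * n : ℝ) ^ q * (1 + 1 / n))) := by gcongr
      _ = _ := by rw [hWq]; ring
  have u2 : K * (W * (1 - 2 * (q : ℝ) ^ 2 / n)) ≤ V * a := by
    calc K * (W * (1 - 2 * (q : ℝ) ^ 2 / n))
        = 4 * n ^ 2 * (K * ((2 * n : ℝ) ^ q * (1 - 2 * (q : ℝ) ^ 2 / n))) := by rw [hWq]; ring
      _ ≤ 4 * n ^ 2 * ((2 * V : ℝ) * q.factorial * S) := by gcongr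
      _ = V * a := by rw [ha]; ring
  have hn2R : 2 * (q : ℝ) ^ 2 / n ≤ 1 := by
    rw [div_le_one (by linarith)]; exact_mod_cast hn2
  have l1 : K * (1 - 2 * (q : ℝ) ^ 2 / n) ≤ a := by
    have : V * (K * (1 - 2 * (q : ℝ) ^ 2 / n)) ≤ V * a := by
      refine le_trans ?_ u2
      calc V * (K * (1 - 2 * (q : ℝ) ^ 2 / n)) ≤ W * (K * (1 - 2 * (q : ℝ) ^ 2 / n)) := by
            apply mul_le_mul_of_nonneg_right w1
            exact mul_nonneg hKpos.le (by linarith)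
        _ = _ := by ring
    exact le_of_mul_le_mul_left this hVpos
  have hq2 : (q : ℝ) + 2 ≤ n := by exact_mod_cast (by omega : q + 2 ≤ n)
  have l2 : a ≤ K * (1 + ((q : ℝ) + 4) / n) := by
    have key : (1 + 1 / (n : ℝ)) ≤
        (1 + ((q : ℝ) + 4) / n) * (1 - ((q : ℝ) + 2) / (2 * n)) := by
      have hn0 : (0 : ℝ) < n := by linarith
      have e1 : (1 + ((q : ℝ) + 4) / n) * (1 - ((q : ℝ) + 2) / (2 * n)) - (1 + 1 / (n : ℝ)) =
          (((q : ℝ) + 4) * (n - (q + 2))) / (2 * n ^ 2) := by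
        field_simp; ring
      have e2 : 0 ≤ (((q : ℝ) + 4) * (n - (q + 2))) / (2 * n ^ 2) := by
        apply div_nonneg _ (by positivity)
        exact mul_nonneg (by linarith) (by linarith)
      linarith
    have : V * a ≤ V * (K * (1 + ((q : ℝ) + 4) / n)) := by
      calc V * a ≤ K * (W * (1 + 1 / n)) := u1
        _ ≤ K * (W * ((1 + ((q : ℝ) + 4) / n) * (1 - ((q : ℝ) + 2) / (2 * n)))) := by gcongr
        _ = K * (1 + ((q : ℝ) + 4) / n) * (W * (1 - ((q : ℝ) + 2) / (2 * n))) := by ring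
        _ ≤ K * (1 + ((q : ℝ) + 4) / n) * V := by gcongr
        _ = _ := by ring
    exact le_of_mul_le_mul_left this hVpos
  have hn0 : (0 : ℝ) < n := by linarith
  have c1 : 2 * (q : ℝ) ^ 2 / n ≤ 5 * (q : ℝ) ^ 2 / n := by gcongr; norm_num
  have c2 : ((q : ℝ) + 4) / n ≤ 5 * (q : ℝ) ^ 2 / n := by
    gcongr; nlinarith
  have d1 : K * (2 * (q : ℝ) ^ 2 / n) ≤ K * (5 * (q : ℝ) ^ 2 / n) := by gcongr
  have d2 : K * (((q : ℝ) + 4) / n) ≤ K * (5 * (q : ℝ) ^ 2 / n) := by gcongr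
  rw [abs_le]
  constructor <;> nlinarith

/-- numeric lemma: the closeness forces equality of the integers. -/
theorem eq_of_close {F Q : ℕ} (hF : 1 ≤ F) {K a : ℝ} (hK : 0 < K)
    (h1 : |a - K| ≤ K / (8 * F)) -- a = 8 n^2 Q S
    (h2 : |(F : ℝ) * a - Q * K| < Q * K / (4 * F)) : F = Q := by
  have hFR : (1 : ℝ) ≤ F := by exact_mod_cast hF
  have hQR : (0 : ℝ) ≤ Q := by positivity
  -- (F - Q) K = (F a - Q K) - F (a - K)
  have e1 : ((F : ℝ) - Q) * K = ((F : ℝ) * a - Q * K) - F * (a - K) := by ring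
  have e2 : |F * (a - K)| ≤ K / 8 := by
    rw [abs_mul, abs_of_nonneg (by linarith : (0 : ℝ) ≤ F)]
    calc (F : ℝ) * |a - K| ≤ F * (K / (8 * F)) := by gcongr
      _ = K / 8 := by field_simp
  have e3 : |((F : ℝ) - Q) * K| < Q * K / (4 * F) + K / 8 := by
    rw [e1]
    calc _ ≤ |(F : ℝ) * a - Q * K| + |F * (a - K)| := abs_sub _ _
      _ < _ := by linarith
  rw [abs_mul, abs_of_pos hK] at e3
  -- Q ≤ 3/2 F
  have e4 : (Q : ℝ) ≤ 3 / 2 * F := by
    have h3 := (abs_lt.1 h2).1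
    have h4 := (abs_le.1 e2).2
    have h5 : Q * K / (4 * F) ≤ Q * K / 4 := by
      apply div_le_div_of_nonneg_left (by positivity) (by norm_num) (by linarith)
    have h6 : Q * K * (3 / 4) ≤ F * K + K / 8 := by nlinarith
    have h7 : K * (Q * (3 / 4)) ≤ K * (F + 1 / 8) := by linarith
    have h8 := le_of_mul_le_mul_left h7 hK
    linarith
  have e5 : Q * K / (4 * F) ≤ 3 / 8 * K := by
    rw [div_le_iff₀ (by linarith)]
    nlinarith
  have e6 : |(F : ℝ) - Q| * K < 1 * K := by linarith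
  have e7 : |(F : ℝ) - Q| < 1 := lt_of_mul_lt_mul_right e6 hK.le
  have e8 : |(F : ℤ) - Q| < 1 := by
    have : ((|(F : ℤ) - Q| : ℤ) : ℝ) < ((1 : ℤ) : ℝ) := by push_cast; exact e7
    exact_mod_cast this
  have := Int.abs_lt_one_iff.1 e8
  omega

end Pool.Agent.H689R2
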