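import Mathlib
import Pool.Agent.H689R2.Core

set_option autoImplicit false

namespace Pool.Agent.H689R2

open Pell Finset

theorem prime_of_dvd_factorial {p : ℕ} (hp : 2 ≤ p) (h : p ∣ (p - 1).factorial + 1) : p.Prime := by
  have h1 : p ≠ 1 := by omega
  rw [Nat.prime_iff_fac_equiv_neg_one h1]
  have h2 : (((p - 1).factorial + 1 : ℕ) : ZMod p) = 0 := (ZMod.natCast_eq_zero_iff _ _).2 h
  push_cast at h2
  exact eq_neg_of_add_eq_zero_left h2

theorem dvd_of_prime {p : ℕ} (hp : p.Prime) : p ∣ (p - 1).factorial + 1 := by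
  have h1 := (Nat.prime_iff_fac_equiv_neg_one hp.one_lt.ne').1 hp
  rw [← ZMod.natCast_eq_zero_iff]
  push_cast
  rw [h1]; ring

theorem num1 {q : ℝ} (hq0 : 0 ≤ q) : 5 * q ^ 2 * 8 ≤ 64 * (q + 1) ^ 2 := by nlinarith

theorem pow_half {n q : ℕ} (hn1 : 1 < n) (hn : q ≤ n) :
    (2 * n : ℝ) ^ q ≤ 2 * (2 * (n : ℝ) - 1) ^ q := by
  have hnR : (1 : ℝ) < n := by exact_mod_cast hn1
  have h5 : -2 ≤ -(1 / (2 * (n : ℝ))) := by
    have : 1 / (2 * (n : ℝ)) ≤ 1 := by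
      rw [div_le_one (by linarith)]; linarith
    linarith
  have h6 := one_add_mul_le_pow h5 q
  have h7 : 1 / 2 ≤ 1 + (q : ℝ) * -(1 / (2 * (n : ℝ))) := by
    have h8 : (q : ℝ) ≤ n := by exact_mod_cast hn
    have h9 : (q : ℝ) * (1 / (2 * (n : ℝ))) ≤ n * (1 / (2 * (n : ℝ))) := by gcongr
    have h10 : (n : ℝ) * (1 / (2 * (n : ℝ))) = 1 / 2 := by field_simp
    linarith
  have h8 : (2 * n : ℝ) ^ q * (1 / 2) ≤ (2 * (n : ℝ) - 1) ^ q := by
    calc (2 * n : ℝ) ^ q * (1 / 2) ≤ (2 * n : ℝ) ^ q * (1 + -(1 / (2 * (n : ℝ)))) ^ q := by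
          gcongr; linarith
      _ = (2 * (n : ℝ) - 1) ^ q := by
          rw [← mul_pow]; congr 1; field_simp; ring
  linarith

theorem pow_big {n q : ℕ} (hn : 64 ≤ n) (hq : q ≤ n) {V : ℕ} {c : ℕ} (hc : c ≤ n ^ 3)
    (hV : (2 * n - 1) ^ (q + n + 1) ≤ V) : c * (2 * n) ^ q < V := by
  obtain ⟨r, hr⟩ : ∃ r, n = q + r := ⟨n - q, by omega⟩
  have h1 : (2 * n) ^ q ≤ 2 ^ q * (2 * n - 1) ^ q := by
    rw [← mul_pow]
    apply Nat.pow_le_pow_left; omega
  have h2 : (2 : ℕ) ^ q ≤ (2 * n - 1) ^ (n - 3) := by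
    calc (2 : ℕ) ^ q ≤ 2 ^ n := Nat.pow_le_pow_right (by norm_num) hq
      _ ≤ 2 ^ (2 * (n - 3)) := Nat.pow_le_pow_right (by norm_num) (by omega)
      _ = 4 ^ (n - 3) := by rw [pow_mul]; norm_num
      _ ≤ (2 * n - 1) ^ (n - 3) := Nat.pow_le_pow_left (by omega) _
  have h3 : n ^ 3 ≤ (2 * n - 1) ^ 3 := Nat.pow_le_pow_left (by omega) _
  have hpos : 0 < (2 * n - 1) ^ (n + q) := Nat.pow_pos (by omega)
  calc c * (2 * n) ^ q ≤ n ^ 3 * (2 ^ q * (2 * n - 1) ^ q) := Nat.mul_le_mul hc h1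
    _ ≤ (2 * n - 1) ^ 3 * ((2 * n - 1) ^ (n - 3) * (2 * n - 1) ^ q) :=
        Nat.mul_le_mul h3 (Nat.mul_le_mul_right _ h2)
    _ = (2 * n - 1) ^ (n + q) * 1 := by
        rw [← pow_add, ← pow_add, mul_one]; congr 1; omega
    _ < (2 * n - 1) ^ (n + q) * (2 * n - 1) :=
        Nat.mul_lt_mul_of_pos_left (by omega) hpos
    _ = (2 * n - 1) ^ (q + n + 1) := by rw [← pow_succ]; congr 1; omega
    _ ≤ V := hV

set_option maxHeartbeats 1000000 in
theorem core_sound {p F n V K C l x y : ℕ} (hp : 2 ≤ p) (hF : 1 ≤ F) (hFp : p ∣ F + 1)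
    (hn : n = 64 * p ^ 2 * F) (hVm : V ≡ p + 2 [MOD n - 1]) (hVge : p + 2 ≤ V)
    (hKm : K ≡ n + 3 - p [MOD V - 1]) (hKge : n + 3 - p ≤ K) (hC : n + 1 ≤ C)
    (s1 : IsSquare (qDPI (((V + 1 : ℕ) : ℤ)) ((n + 1 : ℕ) : ℤ) C x y))
    (s2 : IsSquare (((n : ℤ) ^ 2 - 1) * (V : ℤ) ^ 2 + 1))
    (s3 : IsSquare (((V : ℤ) ^ 2 - 1) * (K : ℤ) ^ 2 + 1))
    (hR : 0 < (K : ℤ) ^ 2 - (4 * F * (8 * n ^ 2 * F * (C - K * l) - K)) ^ 2) : p.Prime := by
  obtain ⟨q, rfl⟩ : ∃ q, p = q + 1 := ⟨p - 1, by omega⟩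
  have hq : 1 ≤ q := by omega
  -- size facts
  have hp2 : (q + 1) * 2 ≤ (q + 1) ^ 2 := by rw [sq]; exact Nat.mul_le_mul_left _ hp
  have hn' : 64 * (q + 1) ^ 2 ≤ n := by
    rw [hn]; exact Nat.le_mul_of_pos_right _ hF
  have hnq : 128 * (q + 1) ≤ n := by omega
  have hqq : q ^ 2 ≤ (q + 1) ^ 2 := Nat.pow_le_pow_left (by omega) 2
  have hq2n : 2 * q ^ 2 ≤ n := by omega
  have hn1 : 1 < n := by omega
  have hFn : 64 * 4 * F ≤ n := by
    rw [hn]
    apply Nat.mul_le_mul_right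
    have : 2 ^ 2 ≤ (q + 1) ^ 2 := Nat.pow_le_pow_left hp 2
    omega
  -- V
  obtain ⟨a, ha⟩ := (isSquare_int_iff hn1 V).1 s2
  have hVaM : a ≡ q + 1 + 2 [MOD n - 1] := by
    have := yn_modEq_a_sub_one hn1 a
    rw [← ha] at this
    exact this.symm.trans hVm
  have hacase := idx_cases hVaM (by omega)
  have hage : q + 3 ≤ a := by omega
  have hVlow : (2 * n - 1) ^ (q + 2) ≤ V := by
    calc (2 * n - 1) ^ (q + 2) ≤ yn hn1 (q + 3) := yn_lower hn1 (q + 2)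
      _ ≤ yn hn1 a := (strictMono_y hn1).monotone hage
      _ = V := ha.symm
  have hVn3 : n ^ 3 ≤ V := by
    calc n ^ 3 ≤ (2 * n - 1) ^ 3 := Nat.pow_le_pow_left (by omega) _
      _ ≤ (2 * n - 1) ^ (q + 2) := Nat.pow_le_pow_right (by omega) (by omega)
      _ ≤ V := hVlow
  have hn2n3 : 16 * n ^ 2 ≤ n ^ 3 := by
    rw [pow_succ n 2, Nat.mul_comm]
    exact Nat.mul_le_mul_left _ (by omega)
  have hV16 : 16 * n ^ 2 ≤ V := hn2n3.trans hVn3
  have hnn : n ≤ n ^ 2 := Nat.le_self_pow (by norm_num) n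
  have h1V : 1 < V := by omega
  have h2V : 1 < V + 1 := by omega
  -- C
  have hCeq : C = yn h2V (n + 1) := main_sound h2V (by omega) hC s1
  -- K
  obtain ⟨i, hi⟩ := (isSquare_int_iff h1V K).1 s3
  have hKi : i ≡ n + 3 - (q + 1) [MOD V - 1] := by
    have := yn_modEq_a_sub_one h1V i
    rw [← hi] at this
    exact this.symm.trans hKm
  have hKpos : 0 < K := by omega
  have hKR : (0 : ℝ) < K := by exact_mod_cast hKpos
  -- real inequality
  obtain ⟨δ, hδ⟩ : ∃ δ : ℤ, δ = C - K * l := ⟨_, rfl⟩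
  have hR1 : |4 * (F : ℝ) * (8 * (n : ℝ) ^ 2 * F * δ - K)| < (K : ℝ) := by
    rw [← hδ] at hR
    have h3 : ((4 * F * (8 * n ^ 2 * F * δ - K)) ^ 2 : ℤ) < (K : ℤ) ^ 2 := by linarith
    have h4 := sq_lt_sq.1 h3
    have h5 : |(4 * (F : ℤ) * (8 * (n : ℤ) ^ 2 * F * δ - K))| < (K : ℤ) := by
      rwa [abs_of_nonneg (by positivity : (0 : ℤ) ≤ (K : ℤ))] at h4
    have h6 : ((|(4 * (F : ℤ) * (8 * (n : ℤ) ^ 2 * F * δ - K))| : ℤ) : ℝ) < ((K : ℤ) : ℝ) := by
      exact_mod_cast h5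
    push_cast at h6
    exact h6
  have hFR : (1 : ℝ) ≤ F := by exact_mod_cast hF
  have hnR : (1 : ℝ) < n := by exact_mod_cast hn1
  have hR2 : |8 * (n : ℝ) ^ 2 * F * δ - K| < (K : ℝ) / (4 * F) := by
    rw [abs_mul, abs_of_pos (by positivity : (0 : ℝ) < 4 * F)] at hR1
    rw [lt_div_iff₀ (by positivity)]
    linarith
  have hKF : (K : ℝ) / (4 * F) ≤ K / 4 :=
    div_le_div_of_nonneg_left hKR.le (by norm_num) (by linarith)
  have hlow : 3 / 4 * (K : ℝ) < 8 * (n : ℝ) ^ 2 * F * δ := by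
    have := (abs_lt.1 hR2).1; linarith
  have hhigh : 8 * (n : ℝ) ^ 2 * F * δ < 5 / 4 * K := by
    have := (abs_lt.1 hR2).2; linarith
  have h11 : 11 * n ^ 2 * F ≤ n ^ 3 := by
    rw [pow_succ n 2, mul_assoc, Nat.mul_left_comm]
    exact Nat.mul_le_mul_left _ (by omega)
  -- index of K
  have hidx : i = n - q + 2 := by
    rcases idx_cases hKi (by omega) with h | h
    · omega
    · exfalso
      have hiV : V ≤ i := by omega
      have hKbig : (2 * V - 1) ^ (V - 1) ≤ K := by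
        calc (2 * V - 1) ^ (V - 1) ≤ yn h1V (V - 1 + 1) := yn_lower h1V (V - 1)
          _ ≤ yn h1V i := (strictMono_y h1V).monotone (by omega)
          _ = K := hi.symm
      have hCup : C ≤ (2 * (V + 1)) ^ n := by rw [hCeq]; exact yn_upper h2V n
      have hδC : δ ≤ C := by
        rw [hδ]
        have : (0 : ℤ) ≤ (K : ℤ) * l := by positivity
        linarith
      have hδCR : (δ : ℝ) ≤ C := by exact_mod_cast hδC
      have h5 : (K : ℝ) ≤ 11 * (n : ℝ) ^ 2 * F * C := by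
        have h6 : 8 * (n : ℝ) ^ 2 * F * δ ≤ 8 * (n : ℝ) ^ 2 * F * C := by gcongr
        have h7 : (0 : ℝ) ≤ (n : ℝ) ^ 2 * F * C := by positivity
        linarith
      have h5' : K ≤ 11 * n ^ 2 * F * C := by exact_mod_cast h5
      have h8 : K ≤ V * (2 * (V + 1)) ^ n := by
        calc K ≤ 11 * n ^ 2 * F * C := h5'
          _ ≤ V * (2 * (V + 1)) ^ n := Nat.mul_le_mul (h11.trans hVn3) hCup
      have h9 : 2 * n + 2 ≤ V - 1 := by omega
      have h10 : (2 * (V + 1)) ^ (n + 1) ≤ (2 * V - 1) ^ (V - 1) := by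
        calc (2 * (V + 1)) ^ (n + 1) ≤ ((2 * V - 1) ^ 2) ^ (n + 1) := by
              apply Nat.pow_le_pow_left
              rw [sq]
              calc 2 * (V + 1) ≤ (2 * V - 1) * 4 := by omega
                _ ≤ (2 * V - 1) * (2 * V - 1) := Nat.mul_le_mul_left _ (by omega)
          _ = (2 * V - 1) ^ (2 * n + 2) := by rw [← pow_mul]; ring_nf
          _ ≤ (2 * V - 1) ^ (V - 1) := Nat.pow_le_pow_right (by omega) h9
      have h11 : V * (2 * (V + 1)) ^ n < (2 * (V + 1)) ^ (n + 1) := by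
        rw [pow_succ, Nat.mul_comm]
        exact Nat.mul_lt_mul_of_pos_left (by omega) (Nat.pow_pos (by omega))
      omega
  rw [hidx] at hi
  -- the estimate
  obtain ⟨L, S, hCS, hS1, hS2⟩ := estimate h1V h2V hq (by omega) hq2n hV16
  rw [← hCeq, ← hi] at hCS
  rw [← hi] at hS1 hS2
  have hVR : (0 : ℝ) < V := by exact_mod_cast (by omega : 0 < V)
  have hqf : (1 : ℝ) ≤ (q.factorial : ℝ) := by exact_mod_cast Nat.one_le_iff_ne_zero.2 (Nat.factorial_ne_zero q)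
  have hV8 : 8 * (2 * n : ℝ) ^ q ≤ V := by
    have h3 := pow_half (n := n) (q := q) hn1 (by omega)
    have hw : ((2 * n - 1 : ℕ) : ℝ) = 2 * n - 1 := by
      rw [Nat.cast_sub (by omega)]; push_cast; ring
    have h4 : (2 * (n : ℝ) - 1) ^ (q + 2) ≤ V := by
      rw [← hw]; exact_mod_cast hVlow
    have h5 : (4 : ℝ) ≤ 2 * (n : ℝ) - 1 := by
      have : (128 : ℝ) ≤ n := by exact_mod_cast (by omega : 128 ≤ n)
      linarith
    have h6 : (16 : ℝ) ≤ (2 * (n : ℝ) - 1) ^ 2 := by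
      calc (16 : ℝ) = 4 ^ 2 := by norm_num
        _ ≤ _ := by gcongr
    have h7 : (0 : ℝ) ≤ (2 * (n : ℝ) - 1) ^ q := by
      apply pow_nonneg; linarith
    calc 8 * (2 * n : ℝ) ^ q ≤ 8 * (2 * (2 * (n : ℝ) - 1) ^ q) := by gcongr
      _ = (2 * (n : ℝ) - 1) ^ q * 16 := by ring
      _ ≤ (2 * (n : ℝ) - 1) ^ q * (2 * (n : ℝ) - 1) ^ 2 := by gcongr
      _ = (2 * (n : ℝ) - 1) ^ (q + 2) := by rw [pow_add]
      _ ≤ V := h4
  have hn1' : 1 + 1 / (n : ℝ) ≤ 2 := by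
    have : 1 / (n : ℝ) ≤ 1 := by rw [div_le_one (by linarith)]; linarith
    linarith
  have hSV : (V : ℝ) * q.factorial * S ≤ K * (2 * n : ℝ) ^ q := by
    have : (K : ℝ) * ((2 * n : ℝ) ^ q * (1 + 1 / n)) ≤ K * ((2 * n : ℝ) ^ q * 2) := by gcongr
    linarith
  have hS0 : (0 : ℝ) ≤ S := by
    have h3 : 2 * (q : ℝ) ^ 2 / n ≤ 1 := by
      rw [div_le_one (by linarith)]
      exact_mod_cast hq2n
    have h4 : (0 : ℝ) ≤ K * ((2 * n : ℝ) ^ q * (1 - 2 * (q : ℝ) ^ 2 / n)) := by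
      apply mul_nonneg hKR.le
      apply mul_nonneg (by positivity)
      linarith
    have h5 := h4.trans hS2
    by_contra hneg
    push Not at hneg
    have : (2 * V : ℝ) * q.factorial * S < 0 := by
      apply mul_neg_of_pos_of_neg (by positivity) hneg
    linarith
  have hS8 : 8 * (S : ℝ) ≤ K := by
    have h3 : (V : ℝ) * (8 * S) ≤ V * K := by
      calc (V : ℝ) * (8 * S) = 8 * (V * 1 * S) := by ring
        _ ≤ 8 * (V * q.factorial * S) := by gcongr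
        _ ≤ 8 * (K * (2 * n : ℝ) ^ q) := by gcongr
        _ = K * (8 * (2 * n : ℝ) ^ q) := by ring
        _ ≤ K * V := by gcongr
        _ = V * K := by ring
    exact le_of_mul_le_mul_left h3 hVR
  have hδ8 : 4 * (δ : ℝ) < K := by
    have h3 : (1 : ℝ) ≤ (n : ℝ) ^ 2 * F := by
      have : (1 : ℝ) ≤ (n : ℝ) ^ 2 := one_le_pow₀ hnR.le
      exact one_le_mul_of_one_le_of_one_le this hFR
    have hδ0 : (0 : ℝ) < δ := by
      by_contra hneg
      push Not at hneg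
      have : 8 * (n : ℝ) ^ 2 * F * δ ≤ 0 :=
        mul_nonpos_of_nonneg_of_nonpos (by positivity) hneg
      linarith
    have h4 : (δ : ℝ) * 1 ≤ δ * ((n : ℝ) ^ 2 * F) := by gcongr
    linarith
  have hδ0 : (0 : ℝ) < δ := by
    by_contra hneg
    push Not at hneg
    have : 8 * (n : ℝ) ^ 2 * F * δ ≤ 0 :=
      mul_nonpos_of_nonneg_of_nonpos (by positivity) hneg
    linarith
  have hLl : (L : ℤ) = l := by
    have h3 : (K : ℤ) * ((L : ℤ) - l) = δ - S := by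
      rw [hδ, hCS]; ring
    have h4 : (K : ℝ) * ((L : ℝ) - l) = δ - S := by exact_mod_cast h3
    have h5 : (K : ℝ) * |((L : ℝ) - l)| < K * 1 := by
      rw [← abs_of_pos hKR, ← abs_mul, abs_of_pos hKR, h4, mul_one, abs_lt]
      constructor <;> linarith
    have h6 := lt_of_mul_lt_mul_left h5 hKR.le
    have h7 : |(L : ℤ) - l| < 1 := by
      have : ((|(L : ℤ) - l| : ℤ) : ℝ) < ((1 : ℤ) : ℝ) := by push_cast; exact h6
      exact_mod_cast this
    have := Int.abs_lt_one_iff.1 h7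
    omega
  have hδS : δ = S := by rw [hδ, hCS, hLl]; ring
  rw [hδS] at hR2 hlow hhigh
  -- index of V
  have haq : a = q + 3 := by
    rcases hacase with h | h
    · omega
    · exfalso
      have h3 : (2 * n - 1) ^ (q + n + 1) ≤ V := by
        calc (2 * n - 1) ^ (q + n + 1) ≤ yn hn1 (q + n + 1 + 1) := yn_lower hn1 (q + n + 1)
          _ ≤ yn hn1 a := (strictMono_y hn1).monotone (by omega)
          _ = V := ha.symm
      have h4 := pow_big (n := n) (q := q) (by omega) (by omega) h11 h3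
      have h5 : (11 * (n : ℝ) ^ 2 * F) * (2 * n) ^ q < V := by exact_mod_cast h4
      have h6 : (V : ℝ) * S ≤ K * (2 * n : ℝ) ^ q := by
        calc (V : ℝ) * S = V * 1 * S := by ring
          _ ≤ V * q.factorial * S := by gcongr
          _ ≤ _ := hSV
      have h7 : (V : ℝ) * (3 / 4 * K) < V * (8 * (n : ℝ) ^ 2 * F * S) := by gcongr
      have h8 : 8 * (n : ℝ) ^ 2 * F * (V * S) ≤ 8 * (n : ℝ) ^ 2 * F * (K * (2 * n : ℝ) ^ q) := by
        gcongr
      have h9 : (K : ℝ) * ((11 * (n : ℝ) ^ 2 * F) * (2 * n) ^ q) < K * V := by gcongr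
      have h10 : (0 : ℝ) ≤ K * ((n : ℝ) ^ 2 * F * (2 * n) ^ q) := by positivity
      have e7 : (V : ℝ) * (8 * (n : ℝ) ^ 2 * F * S) = 8 * (n : ℝ) ^ 2 * F * (V * S) := by ring
      have e8 : 8 * (n : ℝ) ^ 2 * F * (K * (2 * n : ℝ) ^ q) =
        8 * (K * ((n : ℝ) ^ 2 * F * (2 * n) ^ q)) := by ring
      have e9 : (K : ℝ) * ((11 * (n : ℝ) ^ 2 * F) * (2 * n) ^ q) =
        11 * (K * ((n : ℝ) ^ 2 * F * (2 * n) ^ q)) := by ring
      have e10 : (V : ℝ) * (3 / 4 * K) = 3 / 4 * (K * V) := by ring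
      rw [e7] at h7
      rw [e8] at h8
      rw [e9] at h9
      rw [e10] at h7
      linarith
  have hVy : V = yn hn1 (q + 3) := by rw [← haq]; exact ha
  have hfe := final_est hn1 h1V hq (by omega) hq2n hVy (S := S)
    (by rw [← hi]; exact hS1) (by rw [← hi]; exact hS2)
  rw [← hi] at hfe
  have hFq : F = q.factorial := by
    refine eq_of_close hF hKR (a := 8 * (n : ℝ) ^ 2 * q.factorial * S) (hfe.trans ?_) ?_
    · have hnF : (n : ℝ) = 64 * ((q : ℝ) + 1) ^ 2 * F := by rw [hn]; push_cast; ring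
      rw [mul_comm, ← mul_div_assoc, div_le_div_iff₀ (by linarith) (by positivity), hnF]
      have hq0 : (0 : ℝ) ≤ q := by positivity
      have : (K : ℝ) * (5 * (q : ℝ) ^ 2) * (8 * F) ≤ K * (64 * ((q : ℝ) + 1) ^ 2 * F) := by
        have : 5 * (q : ℝ) ^ 2 * 8 ≤ 64 * ((q : ℝ) + 1) ^ 2 := num1 hq0
        calc (K : ℝ) * (5 * (q : ℝ) ^ 2) * (8 * F) = (K * F) * (5 * (q : ℝ) ^ 2 * 8) := by ring
          _ ≤ (K * F) * (64 * ((q : ℝ) + 1) ^ 2) := by gcongr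
          _ = _ := by ring
      exact this
    · have e1 : (F : ℝ) * (8 * (n : ℝ) ^ 2 * q.factorial * S) - q.factorial * K =
        q.factorial * (8 * (n : ℝ) ^ 2 * F * S - K) := by ring
      rw [e1, abs_mul, abs_of_pos (by linarith)]
      calc (q.factorial : ℝ) * |8 * (n : ℝ) ^ 2 * F * S - K|
          < q.factorial * (K / (4 * F)) := by gcongr
        _ = q.factorial * K / (4 * F) := by ring
  apply prime_of_dvd_factorial hp
  rw [Nat.add_sub_cancel, ← hFq]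
  exact hFp

end Pool.Agent.H689R2
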