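import Mathlib
import Pool.Agent.H689R2.Core2

set_option autoImplicit false

namespace Pool.Agent.H689R2

open Pell Finset

section polys
variable {R : Type*} [CommRing R]

/-- `F = (t+2)(g+1) - 1` -/
def vF (t g : R) : R := (t + 2) * (g + 1) - 1
/-- `n = 64 p^2 F`, `p = t + 2` -/
def vn (t g : R) : R := 64 * (t + 2) ^ 2 * vF t g
/-- `V = p + 2 + v (n - 1)` -/
def vV (t g v : R) : R := t + 4 + v * (vn t g - 1)
/-- `K = n + 3 - p + k (V - 1)` -/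
def vK (t g v k : R) : R := vn t g + 1 - t + k * (vV t g v - 1)
/-- `C = n + 1 + h` -/
def vC (t g h : R) : R := vn t g + 1 + h
/-- first square -/
def vA1 (t g v h x y : R) : R := qDPI (vV t g v + 1) (vn t g + 1) (vC t g h) x y
/-- second square -/
def vA2 (t g v : R) : R := ((vn t g) ^ 2 - 1) * (vV t g v) ^ 2 + 1
/-- third square -/
def vA3 (t g v k : R) : R := ((vV t g v) ^ 2 - 1) * (vK t g v k) ^ 2 + 1
/-- the inequality -/
def vR (t g v k h l : R) : R :=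
  (vK t g v k) ^ 2 - (4 * vF t g * (8 * (vn t g) ^ 2 * vF t g *
    (vC t g h - vK t g v k * l) - vK t g v k)) ^ 2
/-- the combined relation -/
def vM (t g v k h l x y m : R) : R :=
  rcM (vA1 t g v h x y) (vA2 t g v) (vA3 t g v k) (vR t g v k h l) m
/-- the prime representing polynomial -/
def vP (t g v k h l x y m : R) : R := (t + 2) * (1 - (vM t g v k h l x y m) ^ 2)

end polys

theorem vP_map {R S : Type*} [CommRing R] [CommRing S] (φ : R →+* S) (t g v k h l x y m : R) :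
    φ (vP t g v k h l x y m) = vP (φ t) (φ g) (φ v) (φ k) (φ h) (φ l) (φ x) (φ y) (φ m) := by
  simp only [vP, vM, rcM, rcK, vR, vA1, vA2, vA3, vC, vK, vV, vn, vF, qDPI, qD, qE, qP, qG, qH, qI,
    map_mul, map_add, map_sub, map_pow, map_one, map_ofNat]

theorem sq_sub_one_nonneg' {a : ℤ} (ha : 1 ≤ a) : 0 ≤ a ^ 2 - 1 :=
  sub_nonneg.2 (one_le_pow₀ ha)

theorem qDPI_pos {A B C x y : ℕ} (hA : 1 < A) : 0 < qDPI (A : ℤ) B C x y := by
  have hAz : (2 : ℤ) ≤ A := by exact_mod_cast hA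
  have hA2 : (0 : ℤ) ≤ (A : ℤ) ^ 2 - 1 := sq_sub_one_nonneg' (by linarith)
  have hD : 0 < qD (A : ℤ) C := by
    unfold qD; positivity
  have hP : (A : ℤ) ≤ qP (A : ℤ) C x ∨ qP (A : ℤ) C x = 1 := by
    unfold qP
    by_cases h : qE (A : ℤ) C x = 0
    · right; rw [h]; ring
    · left
      have h1 : 1 ≤ (qE (A : ℤ) C x) ^ 2 := by
        have := sq_nonneg (qE (A : ℤ) C x)
        have h2 : (qE (A : ℤ) C x) ^ 2 ≠ 0 := pow_ne_zero 2 h
        omega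
      nlinarith
  have hP1 : 0 < qP (A : ℤ) C x := by
    rcases hP with h | h
    · linarith
    · rw [h]; norm_num
  have hG : 0 ≤ (qG (A : ℤ) C x) ^ 2 - 1 := by
    unfold qG
    rcases hP with h | h
    · apply sq_sub_one_nonneg'
      have h1 : 0 ≤ qP (A : ℤ) C x * (qP (A : ℤ) C x - A) :=
        mul_nonneg hP1.le (by linarith)
      linarith
    · rw [h]; ring_nf; norm_num
  have hI : 0 < qI (A : ℤ) B C x y := by
    unfold qI; positivity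
  unfold qDPI
  positivity

theorem nine_sound {t g v k h l x y m : ℕ}
    (hM : vM (t : ℤ) g v k h l x y m = 0) : (t + 2).Prime := by
  -- natural number versions
  obtain ⟨F, hF⟩ : ∃ F : ℕ, F + 1 = (t + 2) * (g + 1) := by
    refine ⟨(t + 2) * (g + 1) - 1, ?_⟩
    have : 0 < (t + 2) * (g + 1) := by positivity
    omega
  have hF1 : 1 ≤ F := by
    have : 2 * 1 ≤ (t + 2) * (g + 1) := Nat.mul_le_mul (by omega) (by omega)
    omega
  have hFz : vF (t : ℤ) g = F := by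
    have : ((F + 1 : ℕ) : ℤ) = (((t + 2) * (g + 1) : ℕ) : ℤ) := by rw [hF]
    push_cast at this
    unfold vF; linarith
  obtain ⟨n, hn⟩ : ∃ n : ℕ, n = 64 * (t + 2) ^ 2 * F := ⟨_, rfl⟩
  have hnz : vn (t : ℤ) g = n := by
    unfold vn; rw [hFz, hn]; push_cast; ring
  have ht2 : (t + 2) * 2 ≤ (t + 2) ^ 2 := by rw [sq]; exact Nat.mul_le_mul_left _ (by omega)
  have hnt : 64 * (t + 2) ^ 2 ≤ n := by rw [hn]; exact Nat.le_mul_of_pos_right _ hF1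
  obtain ⟨V, hV⟩ : ∃ V : ℕ, V = t + 4 + v * (n - 1) := ⟨_, rfl⟩
  have hVz : vV (t : ℤ) g v = V := by
    unfold vV; rw [hnz, hV]; push_cast [Nat.cast_sub (by omega : 1 ≤ n)]; ring
  obtain ⟨K, hK⟩ : ∃ K : ℕ, K = (n + 1 - t) + k * (V - 1) := ⟨_, rfl⟩
  have hKz : vK (t : ℤ) g v k = K := by
    unfold vK; rw [hnz, hVz, hK]
    push_cast [Nat.cast_sub (by omega : 1 ≤ V), Nat.cast_sub (by omega : t ≤ n + 1)]; ring
  obtain ⟨C, hC⟩ : ∃ C : ℕ, C = n + 1 + h := ⟨_, rfl⟩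
  have hCz : vC (t : ℤ) g h = C := by unfold vC; rw [hnz, hC]; push_cast; ring
  have e1 : vA1 (t : ℤ) g v h x y = qDPI (((V + 1 : ℕ) : ℤ)) ((n + 1 : ℕ) : ℤ) C x y := by
    unfold vA1; rw [hVz, hnz, hCz]; push_cast; rfl
  have e2 : vA2 (t : ℤ) g v = ((n : ℤ) ^ 2 - 1) * (V : ℤ) ^ 2 + 1 := by
    unfold vA2; rw [hVz, hnz]
  have e3 : vA3 (t : ℤ) g v k = ((V : ℤ) ^ 2 - 1) * (K : ℤ) ^ 2 + 1 := by
    unfold vA3; rw [hVz, hKz]
  have e4 : vR (t : ℤ) g v k h l =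
      (K : ℤ) ^ 2 - (4 * F * (8 * n ^ 2 * F * (C - K * l) - K)) ^ 2 := by
    unfold vR; rw [hKz, hFz, hnz, hCz]
  have hn1 : (1 : ℤ) ≤ n := by exact_mod_cast (by omega : 1 ≤ n)
  have hV1 : (1 : ℤ) ≤ V := by exact_mod_cast (by omega : 1 ≤ V)
  have p1 : 0 < vA1 (t : ℤ) g v h x y := by
    rw [e1]; exact qDPI_pos (by omega)
  have p2 : 0 < vA2 (t : ℤ) g v := by
    rw [e2]
    have : (0 : ℤ) ≤ (n : ℤ) ^ 2 - 1 := sq_sub_one_nonneg' hn1
    positivity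
  have p3 : 0 < vA3 (t : ℤ) g v k := by
    rw [e3]
    have : (0 : ℤ) ≤ (V : ℤ) ^ 2 - 1 := sq_sub_one_nonneg' hV1
    positivity
  obtain ⟨⟨s1, s2, s3⟩, hR⟩ := rcM_sound p1 p2 p3 hM
  rw [e1] at s1
  rw [e2] at s2
  rw [e3] at s3
  rw [e4] at hR
  refine core_sound (p := t + 2) (F := F) (n := n) (V := V) (K := K) (C := C) (l := l) (x := x)
    (y := y) (by omega) hF1 ⟨g + 1, by rw [hF]⟩ hn ?_ (by omega) ?_ (by omega) (by omega)
    s1 s2 s3 hR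
  · rw [hV]
    have : t + 2 + 2 = t + 4 + 0 := by ring
    rw [this]
    exact Nat.ModEq.add_left _ ((dvd_mul_left _ _).modEq_zero_nat)
  · rw [hK]
    have : n + 3 - (t + 2) = n + 1 - t + 0 := by omega
    rw [this]
    exact Nat.ModEq.add_left _ ((dvd_mul_left _ _).modEq_zero_nat)

theorem exists_quot {a c M : ℕ} (h : a ≡ c [MOD M]) (hc : c ≤ a) : ∃ q, a = c + q * M := by
  obtain ⟨q, hq⟩ := (Nat.modEq_iff_dvd' hc).1 h.symm
  exact ⟨q, by rw [Nat.mul_comm, ← hq]; omega⟩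

set_option maxHeartbeats 1000000 in
theorem nine_complete {t : ℕ} (hp : (t + 2).Prime) :
    ∃ g v k h l x y m : ℕ, vM (t : ℤ) g v k h l x y m = 0 := by
  obtain ⟨q, hq⟩ : ∃ q, q = t + 1 := ⟨_, rfl⟩
  obtain ⟨F, hFdef⟩ : ∃ F, F = q.factorial := ⟨_, rfl⟩
  have hF1 : 1 ≤ F := by rw [hFdef]; exact Nat.one_le_iff_ne_zero.2 (Nat.factorial_ne_zero q)
  obtain ⟨g, hF⟩ : ∃ g : ℕ, F + 1 = (t + 2) * (g + 1) := by
    have h1 := dvd_of_prime hp
    rw [show t + 2 - 1 = q by omega, ← hFdef] at h1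
    obtain ⟨c, hc⟩ := h1
    have : 0 < c := by
      rcases Nat.eq_zero_or_pos c with h0 | h0
      · rw [h0] at hc; omega
      · exact h0
    exact ⟨c - 1, by rw [Nat.sub_add_cancel this]; exact hc⟩
  have hFz : vF (t : ℤ) g = F := by
    have : ((F + 1 : ℕ) : ℤ) = (((t + 2) * (g + 1) : ℕ) : ℤ) := by rw [hF]
    push_cast at this
    unfold vF; linarith
  obtain ⟨n, hn⟩ : ∃ n : ℕ, n = 64 * (t + 2) ^ 2 * F := ⟨_, rfl⟩
  have hnz : vn (t : ℤ) g = n := by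
    unfold vn; rw [hFz, hn]; push_cast; ring
  have ht2 : (t + 2) * 2 ≤ (t + 2) ^ 2 := by rw [sq]; exact Nat.mul_le_mul_left _ (by omega)
  have hqq : q ^ 2 ≤ (t + 2) ^ 2 := Nat.pow_le_pow_left (by omega) 2
  have hnt : 64 * (t + 2) ^ 2 ≤ n := by rw [hn]; exact Nat.le_mul_of_pos_right _ hF1
  have hn1 : 1 < n := by omega
  obtain ⟨V, hVy⟩ : ∃ V : ℕ, V = yn hn1 (q + 3) := ⟨_, rfl⟩
  have hVlow : (2 * n - 1) ^ (q + 2) ≤ V := by rw [hVy]; exact yn_lower hn1 (q + 2)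
  have hVn3 : n ^ 3 ≤ V := by
    calc n ^ 3 ≤ (2 * n - 1) ^ 3 := Nat.pow_le_pow_left (by omega) _
      _ ≤ (2 * n - 1) ^ (q + 2) := Nat.pow_le_pow_right (by omega) (by omega)
      _ ≤ V := hVlow
  have hn2n3 : 16 * n ^ 2 ≤ n ^ 3 := by
    rw [pow_succ n 2, Nat.mul_comm]
    exact Nat.mul_le_mul_left _ (by omega)
  have hV16 : 16 * n ^ 2 ≤ V := hn2n3.trans hVn3
  have hnn : n ≤ n ^ 2 := Nat.le_self_pow (by norm_num) n
  have h1V : 1 < V := by omega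
  have h2V : 1 < V + 1 := by omega
  obtain ⟨v, hv⟩ : ∃ v, V = (q + 3) + v * (n - 1) := by
    apply exists_quot
    · rw [hVy]; exact yn_modEq_a_sub_one hn1 _
    · rw [hVy]; exact yn_ge_n hn1 _
  have hVz : vV (t : ℤ) g v = V := by
    unfold vV; rw [hnz, hv, hq]; push_cast [Nat.cast_sub (by omega : 1 ≤ n)]; ring
  obtain ⟨K, hKy⟩ : ∃ K : ℕ, K = yn h1V (n - q + 2) := ⟨_, rfl⟩
  obtain ⟨k, hk⟩ : ∃ k, K = (n - q + 2) + k * (V - 1) := by
    apply exists_quot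
    · rw [hKy]; exact yn_modEq_a_sub_one h1V _
    · rw [hKy]; exact yn_ge_n h1V _
  have hKz : vK (t : ℤ) g v k = K := by
    unfold vK; rw [hnz, hVz, hk, hq]
    push_cast [Nat.cast_sub (by omega : 1 ≤ V), Nat.cast_sub (by omega : t + 1 ≤ n)]; ring
  obtain ⟨C, hCy⟩ : ∃ C : ℕ, C = yn h2V (n + 1) := ⟨_, rfl⟩
  obtain ⟨h, hh⟩ : ∃ h, C = n + 1 + h := by
    have : n + 1 ≤ C := by rw [hCy]; exact yn_ge_n h2V _
    exact ⟨C - (n + 1), by omega⟩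
  have hCz : vC (t : ℤ) g h = C := by unfold vC; rw [hnz, hh]; push_cast; ring
  obtain ⟨x, y, s1⟩ := main_complete h2V (B := n + 1) (by omega)
  rw [← hCy] at s1
  have e1 : vA1 (t : ℤ) g v h x y = qDPI (((V + 1 : ℕ) : ℤ)) ((n + 1 : ℕ) : ℤ) C x y := by
    unfold vA1; rw [hVz, hnz, hCz]; push_cast; rfl
  have e2 : vA2 (t : ℤ) g v = ((n : ℤ) ^ 2 - 1) * (V : ℤ) ^ 2 + 1 := by
    unfold vA2; rw [hVz, hnz]
  have e3 : vA3 (t : ℤ) g v k = ((V : ℤ) ^ 2 - 1) * (K : ℤ) ^ 2 + 1 := by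
    unfold vA3; rw [hVz, hKz]
  have s2 : IsSquare (((n : ℤ) ^ 2 - 1) * (V : ℤ) ^ 2 + 1) := (isSquare_int_iff hn1 V).2 ⟨_, hVy⟩
  have s3 : IsSquare (((V : ℤ) ^ 2 - 1) * (K : ℤ) ^ 2 + 1) := (isSquare_int_iff h1V K).2 ⟨_, hKy⟩
  obtain ⟨l, S, hCS, hS1, hS2⟩ := estimate (q := q) h1V h2V (by omega) (by omega) (by omega) hV16
  have hfe := final_est hn1 h1V (q := q) (by omega) (by omega) (by omega) hVy (S := S) hS1 hS2
  rw [← hKy] at hfe hCS
  rw [← hCy] at hCS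
  have e4 : vR (t : ℤ) g v k h l =
      (K : ℤ) ^ 2 - (4 * F * (8 * n ^ 2 * F * (C - K * l) - K)) ^ 2 := by
    unfold vR; rw [hKz, hFz, hnz, hCz]
  have hKpos : 0 < K := by omega
  have hKR : (0 : ℝ) < K := by exact_mod_cast hKpos
  have hFR : (1 : ℝ) ≤ F := by exact_mod_cast hF1
  have hnR : (1 : ℝ) < n := by exact_mod_cast hn1
  have hRpos : 0 < vR (t : ℤ) g v k h l := by
    rw [e4, show (C : ℤ) - K * l = S by rw [hCS]; ring]
    have h1 : |4 * (F : ℝ) * (8 * (n : ℝ) ^ 2 * F * S - K)| < (K : ℝ) := by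
      rw [abs_mul, abs_of_pos (by positivity : (0 : ℝ) < 4 * F)]
      rw [← hFdef] at hfe
      have h2 : 5 * (q : ℝ) ^ 2 / n * K < K / (4 * F) := by
        have hnF : (n : ℝ) = 64 * ((q : ℝ) + 1) ^ 2 * F := by rw [hn, hq]; push_cast; ring
        rw [mul_comm, ← mul_div_assoc, div_lt_div_iff₀ (by linarith) (by positivity), hnF]
        have hq0 : (0 : ℝ) ≤ q := by positivity
        have h3 : 5 * (q : ℝ) ^ 2 * 4 < 64 * ((q : ℝ) + 1) ^ 2 := by nlinarith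
        calc (K : ℝ) * (5 * (q : ℝ) ^ 2) * (4 * F) = (K * F) * (5 * (q : ℝ) ^ 2 * 4) := by ring
          _ < (K * F) * (64 * ((q : ℝ) + 1) ^ 2) := by gcongr
          _ = _ := by ring
      have h3 := lt_of_le_of_lt hfe h2
      rw [lt_div_iff₀ (by positivity)] at h3
      linarith
    have h2 : |4 * (F : ℤ) * (8 * (n : ℤ) ^ 2 * F * S - K)| < (K : ℤ) := by
      have : ((|4 * (F : ℤ) * (8 * (n : ℤ) ^ 2 * F * S - K)| : ℤ) : ℝ) < ((K : ℤ) : ℝ) := by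
        push_cast; exact h1
      exact_mod_cast this
    have h3 : (4 * (F : ℤ) * (8 * (n : ℤ) ^ 2 * F * S - K)) ^ 2 < (K : ℤ) ^ 2 := by
      rw [sq_lt_sq, abs_of_nonneg (by positivity : (0 : ℤ) ≤ (K : ℤ))]
      exact h2
    linarith
  have hn1z : (1 : ℤ) ≤ n := by exact_mod_cast (by omega : 1 ≤ n)
  have hV1z : (1 : ℤ) ≤ V := by exact_mod_cast (by omega : 1 ≤ V)
  obtain ⟨m, hm⟩ := rcM_complete (A1 := vA1 (t : ℤ) g v h x y) (A2 := vA2 (t : ℤ) g v)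
    (A3 := vA3 (t : ℤ) g v k) (r := vR (t : ℤ) g v k h l)
    (by rw [e1]; exact s1) (by rw [e2]; exact s2) (by rw [e3]; exact s3)
    (by rw [e1]; exact qDPI_pos (by omega))
    (by
      rw [e2]
      have : (0 : ℤ) ≤ (n : ℤ) ^ 2 - 1 := sq_sub_one_nonneg' hn1z
      positivity)
    (by
      rw [e3]
      have : (0 : ℤ) ≤ (V : ℤ) ^ 2 - 1 := sq_sub_one_nonneg' hV1z
      positivity) hRpos
  exact ⟨g, v, k, h, l, x, y, m, hm⟩

end Pool.Agent.H689R2
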